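import Mathlib

/-!
# Bending multicurves of convex cores of GHMC anti-de Sitter manifolds: definitions

* The hyperbolic plane is Mathlib's upper half plane `ℍ`, its circle at infinity is the real
  projective line `Bd = ℙ ℝ (Fin 2 → ℝ)`; both carry the action of `SL(2, ℝ)` by Moebius maps
  (and `Bd` the action of `PSL(2, ℝ)`).
* The closed oriented surface is `S = ℍ / Γ` with `Γ ≤ SL(2, ℝ)` acting freely modulo `±1`,
  properly and cocompactly; it serves to fix the topology (the group and its circle at infinity).
* A weighted multicurve on `S` is given by the endpoints of the lifts to `ℍ` of its geodesic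
  representative.
* A point of the Teichmueller space of `S` is a representation of the fundamental group in
  `PSL(2, ℝ)` together with the orientation preserving homeomorphism of the circle that
  conjugates the action of `Γ` to it.
* A GHMC AdS structure on `S × ℝ` is, by the theorem of Mess quoted in the problem file, a pair
  of such points (left and right hyperbolic metric); isotopy is conjugacy in
  `PSL(2, ℝ) × PSL(2, ℝ)`.
-/

open scoped MatrixGroups LinearAlgebra.Projectivization
open Matrix UpperHalfPlane

namespace AdSBend

/-- The circle at infinity of the hyperbolic plane: the real projective line `RP¹`. -/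
abbrev Bd : Type := ℙ ℝ (Fin 2 → ℝ)

/-- The area form of `ℝ²`. -/
def dt (u v : Fin 2 → ℝ) : ℝ := u 0 * v 1 - u 1 * v 0

/-- `Cyc x y z`: the three points `x, y, z` of the circle at infinity are distinct and one meets
them in this order when one moves in the positive direction (for the points `t = [t : 1]` of the
real line this is the increasing direction). -/
def Cyc (x y z : Bd) : Prop := 0 < dt x.rep y.rep * dt y.rep z.rep * dt z.rep x.rep

/-- The geodesics of the hyperbolic plane with endpoints `x, y` and `x', y'` cross each other. -/
def Linked (x y x' y' : Bd) : Prop :=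
  (Cyc x x' y ∧ Cyc x y y') ∨ (Cyc x y' y ∧ Cyc x y x')

/-- The side of the geodesic with endpoints `x, y` on which the point `z` of the upper half plane
lies: the number is positive when `z` lies on the side that contains the ideal points `c` with
`Cyc x c y`, negative when it lies on the side of the ideal points `c` with `Cyc y c x`, and zero
when `z` is a point of the geodesic. -/
noncomputable def side (z : ℍ) (x y : Bd) : ℝ :=
  ((x.rep 0 - z.re * x.rep 1) * (y.rep 0 - z.re * y.rep 1) + z.im ^ 2 * (x.rep 1 * y.rep 1)) *
    dt x.rep y.rep

/-- The geodesic with endpoints `x, y` separates the points `z` and `z'` of the upper half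
plane. -/
def SepPts (x y : Bd) (z z' : ℍ) : Prop := side z x y * side z' x y < 0

/-- The geodesic with endpoints `x, y` separates the point `z` of the upper half plane from the
ideal point `c`. -/
def SepIdeal (x y : Bd) (z : ℍ) (c : Bd) : Prop :=
  (0 < side z x y ∧ Cyc y c x) ∨ (side z x y < 0 ∧ Cyc x c y)

/-- `Γ` is the preimage in `SL(2, ℝ)` (or a lift to `SL(2, ℝ)`) of the fundamental group of a
closed oriented hyperbolic surface `ℍ / Γ`: it acts freely modulo `±1`, properly and
cocompactly on the upper half plane. Every closed oriented surface of genus at least two is such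
a quotient. -/
structure IsClosedSurfaceGroup (Γ : Subgroup SL(2, ℝ)) : Prop where
  free : ∀ γ ∈ Γ, ∀ z : ℍ, γ • z = z → γ = 1 ∨ γ = -1
  proper : ∀ K : Set ℍ, IsCompact K → {γ : SL(2, ℝ) | γ ∈ Γ ∧ ∃ z ∈ K, γ • z ∈ K}.Finite
  cocompact : ∃ K : Set ℍ, IsCompact K ∧ ∀ z : ℍ, ∃ γ ∈ Γ, γ • z ∈ K

/-- The geodesic with endpoints `x, y` is a lift of a closed geodesic of `ℍ / Γ`. -/
def IsClosedGeodesic (Γ : Subgroup SL(2, ℝ)) (x y : Bd) : Prop :=
  x ≠ y ∧ ∃ γ ∈ Γ, γ ≠ 1 ∧ γ ≠ -1 ∧ γ • x = x ∧ γ • y = y

/-- The geodesic with endpoints `x, y` is a lift of a simple closed geodesic of `ℍ / Γ`: it is a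
lift of a closed geodesic and none of its translates crosses it. (Every essential simple closed
curve of the surface is homotopic to exactly one simple closed geodesic.) -/
def IsSimpleClosedGeodesic (Γ : Subgroup SL(2, ℝ)) (x y : Bd) : Prop :=
  IsClosedGeodesic Γ x y ∧ ∀ γ ∈ Γ, ¬ Linked x y (γ • x) (γ • y)

/-- A weighted multicurve on `ℍ / Γ`: `w x y` is the weight of the geodesic with endpoints `x, y`,
it is zero when this geodesic is not a lift of a component of the multicurve. The components are
closed geodesics, simple and pairwise disjoint, in finite number. -/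
structure WeightedMulticurve (Γ : Subgroup SL(2, ℝ)) where
  w : Bd → Bd → ℝ
  nonneg : ∀ x y, 0 ≤ w x y
  symm : ∀ x y, w x y = w y x
  invariant : ∀ γ ∈ Γ, ∀ x y, w (γ • x) (γ • y) = w x y
  closed : ∀ x y, w x y ≠ 0 → IsClosedGeodesic Γ x y
  disjoint : ∀ x y x' y', w x y ≠ 0 → w x' y' ≠ 0 → ¬ Linked x y x' y'
  finite : ∃ s : Finset (Bd × Bd), ∀ x y, w x y ≠ 0 → ∃ γ ∈ Γ, (γ • x, γ • y) ∈ s

variable {Γ : Subgroup SL(2, ℝ)}

/-- Two weighted multicurves fill the surface: every simple closed geodesic crosses one of
them. (This includes the components of the multicurves themselves.) -/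
def Fill (l m : WeightedMulticurve Γ) : Prop :=
  ∀ x y, IsSimpleClosedGeodesic Γ x y →
    ∃ x' y', (l.w x' y' ≠ 0 ∨ m.w x' y' ≠ 0) ∧ Linked x y x' y'

/-- The point `z` of the universal cover `ℍ` lies on no lift of a component of the multicurve. -/
def WeightedMulticurve.Off (l : WeightedMulticurve Γ) (z : ℍ) : Prop :=
  ∀ x y, l.w x y ≠ 0 → side z x y ≠ 0

/-- The ideal point `c` belongs to the closure of the complementary region (plaque) of the
multicurve that contains `z`: no lift of a component of the multicurve separates `z` from `c`. -/
def WeightedMulticurve.Visible (l : WeightedMulticurve Γ) (z : ℍ) (c : Bd) : Prop :=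
  ∀ x y, l.w x y ≠ 0 → ¬ SepIdeal x y z c

/-- The leaf with endpoints `x, y` is the one and only leaf of the multicurve that separates the
points `z` and `z'`: their plaques are adjacent along this leaf. -/
def WeightedMulticurve.AdjacentAlong (l : WeightedMulticurve Γ) (x y : Bd) (z z' : ℍ) : Prop :=
  l.w x y ≠ 0 ∧ SepPts x y z z' ∧
    ∀ x' y', l.w x' y' ≠ 0 → SepPts x' y' z z' → (x' = x ∧ y' = y) ∨ (x' = y ∧ y' = x)

/-- A marked hyperbolic structure on the surface `ℍ / Γ` (a point of its Teichmueller space):
a representation `hol` of `Γ` in `PSL(2, ℝ)` and a homeomorphism `bd` of the circle at infinity,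
preserving the cyclic order, that conjugates the action of `Γ` to the action through `hol`.
(A bijection of the circle that preserves the cyclic order is a homeomorphism.) -/
structure MarkedStructure (Γ : Subgroup SL(2, ℝ)) where
  hol : Γ →* PSL(2, ℝ)
  bd : Bd ≃ Bd
  bd_cyc : ∀ x y z, Cyc x y z → Cyc (bd x) (bd y) (bd z)
  bd_equivariant : ∀ (γ : Γ) (x : Bd), bd ((γ : SL(2, ℝ)) • x) = hol γ • bd x

/-- A globally hyperbolic maximal compact AdS structure on `(ℍ / Γ) × ℝ`, given (Mess) by its
left and right hyperbolic metrics. Its holonomy is `γ ↦ (left.hol γ, right.hol γ)`, acting on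
`AdS³ = PSL(2, ℝ)` by `X ↦ right.hol γ * X * (left.hol γ)⁻¹` and on the boundary at infinity
`RP¹ × RP¹` of `AdS³` factor by factor; its limit curve is the set of points
`(left.bd c, right.bd c)`, `c` in `Bd`. -/
structure GHMC (Γ : Subgroup SL(2, ℝ)) where
  left : MarkedStructure Γ
  right : MarkedStructure Γ

/-- Two GHMC AdS structures are equal up to isotopy: their holonomies are conjugate in the
isometry group `PSL(2, ℝ) × PSL(2, ℝ)` of `AdS³`. -/
def GHMC.Isotopic (M M' : GHMC Γ) : Prop :=
  ∃ g h : PSL(2, ℝ), ∀ γ : Γ,
    M'.left.hol γ = g * M.left.hol γ * g⁻¹ ∧ M'.right.hol γ = h * M.right.hol γ * h⁻¹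

/-- An element `N` of `SL(2, ℝ)` stands for the space-like totally geodesic plane
`{X | trace (N⁻¹ X) = 0}` of `AdS³ = PSL(2, ℝ)` (the points at time-like distance `π / 2` of
`±N`). Its circle at infinity is the graph of `N` in `RP¹ × RP¹`. This says that the point of the
limit curve with parameter `c` lies on this circle. -/
def GHMC.Touches (M : GHMC Γ) (N : SL(2, ℝ)) (c : Bd) : Prop :=
  N • M.left.bd c = M.right.bd c

/-- The plane dual to `N` meets the closure at infinity of the convex hull of the limit curve and
this convex hull lies on its past side: the limit curve `c ↦ (left.bd c, right.bd c)` lies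
(weakly) below the graph of `N`. Here the positive rotations are future directed; the word below is
measured from a common point `c₀` of the two curves: in the positive direction from
`right.bd c₀` one meets `right.bd c` not later than `N • left.bd c`. -/
def GHMC.FutureSupport (M : GHMC Γ) (N : SL(2, ℝ)) : Prop :=
  (∃ c₀, M.Touches N c₀) ∧
    ∀ c₀ c, M.Touches N c₀ → ¬ Cyc (N • M.left.bd c) (M.right.bd c) (M.right.bd c₀)

/-- The plane dual to `N` meets the closure at infinity of the convex hull of the limit curve and
this convex hull lies on its future side. -/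
def GHMC.PastSupport (M : GHMC Γ) (N : SL(2, ℝ)) : Prop :=
  (∃ c₀, M.Touches N c₀) ∧
    ∀ c₀ c, M.Touches N c₀ → ¬ Cyc (M.right.bd c) (N • M.left.bd c) (M.right.bd c₀)

/-- The future boundary component of the convex core is bent exactly along the multicurve `l`:
over every plaque of `l` (given by a point `z` of the universal cover off the leaves) there is a
support plane `N z` of the convex hull of the limit curve, with the convex hull in its past, whose
circle at infinity contains all the points of the limit curve given by the ideal points of the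
plaque (so that the face of the boundary over the plaque is the convex hull of these points, and
two adjacent faces meet along the leaf between them); and the (hyperbolic, exterior dihedral)
angle between the support planes over two plaques adjacent along a leaf is the weight of the
leaf: the hyperbolic cosine of the angle is `|trace (N z)⁻¹ (N z')| / 2`, the absolute value of
the scalar product of the two dual points `N z`, `N z'`, for the metric of curvature `-1`. -/
def GHMC.FutureBending (M : GHMC Γ) (l : WeightedMulticurve Γ) : Prop :=
  ∃ N : ℍ → SL(2, ℝ),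
    (∀ z, l.Off z → M.FutureSupport (N z) ∧ ∀ c, l.Visible z c → M.Touches (N z) c) ∧
    ∀ z z' x y, l.Off z → l.Off z' → l.AdjacentAlong x y z z' →
      |Matrix.trace (((N z)⁻¹ * N z' : SL(2, ℝ)) : Matrix (Fin 2) (Fin 2) ℝ)| =
        2 * Real.cosh (l.w x y)

/-- The past boundary component of the convex core is bent exactly along the multicurve `l`
(see `GHMC.FutureBending`). -/
def GHMC.PastBending (M : GHMC Γ) (l : WeightedMulticurve Γ) : Prop :=
  ∃ N : ℍ → SL(2, ℝ),
    (∀ z, l.Off z → M.PastSupport (N z) ∧ ∀ c, l.Visible z c → M.Touches (N z) c) ∧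
    ∀ z z' x y, l.Off z → l.Off z' → l.AdjacentAlong x y z z' →
      |Matrix.trace (((N z)⁻¹ * N z' : SL(2, ℝ)) : Matrix (Fin 2) (Fin 2) ℝ)| =
        2 * Real.cosh (l.w x y)

/-- The final statement. -/
def FinalStatement : Prop :=
  ∀ (Γ : Subgroup SL(2, ℝ)), IsClosedSurfaceGroup Γ →
    ∀ lm lp : WeightedMulticurve Γ, Fill lm lp →
      ∀ M M' : GHMC Γ,
        M.PastBending lm → M.FutureBending lp → M'.PastBending lm → M'.FutureBending lp →
          M.Isotopic M'

end AdSBend
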