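import Pool.Agent.helper69.AD.Geo

/-!
Statements of the modules BD (ideal points) and PT (points of the hyperbolic plane).
-/

open scoped MatrixGroups LinearAlgebra.Projectivization
open Matrix UpperHalfPlane

namespace AdSBend

noncomputable section

/-- the ideal point with real coordinate `t` -/
def bPt (t : ℝ) : Bd := Projectivization.mk ℝ ![t, 1] (by intro h; simpa using congrFun h 1)

/-! ### BD: ideal points -/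

/-- BD1: the cyclic order in terms of arbitrary representatives -/
def BD1_stmt : Prop := ∀ (u v w : Fin 2 → ℝ) (hu : u ≠ 0) (hv : v ≠ 0) (hw : w ≠ 0),
  Cyc (Projectivization.mk ℝ u hu) (Projectivization.mk ℝ v hv) (Projectivization.mk ℝ w hw) ↔
    0 < dt u v * dt v w * dt w u

/-- BD2: invariance under the action of the group -/
def BD2_stmt : Prop := ∀ (g : SL(2, ℝ)) (x y z : Bd), Cyc (g • x) (g • y) (g • z) ↔ Cyc x y z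

/-- BD3: linear coordinate on the complement of a point -/
def BD3_stmt : Prop := ∀ x : Bd, ∃ φ : Bd → ℝ,
  (∀ t : ℝ, ∃ a, a ≠ x ∧ φ a = t) ∧
  (∀ a b, a ≠ x → b ≠ x → φ a = φ b → a = b) ∧
  (∀ a b, a ≠ x → b ≠ x → (Cyc x a b ↔ φ a < φ b)) ∧
  (∀ a b c, a ≠ x → b ≠ x → c ≠ x → (Cyc a b c ↔
    (φ a < φ b ∧ φ b < φ c) ∨ (φ b < φ c ∧ φ c < φ a) ∨ (φ c < φ a ∧ φ a < φ b))) ∧
  (∀ a b, ¬ Cyc x x a ∧ ¬ Cyc x a x ∧ ¬ Cyc a x x ∧ (Cyc a b x ↔ Cyc x a b) ∧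
    (Cyc b x a ↔ Cyc x a b))

/-- BD4: cyclic order axioms -/
def BD4_stmt : Prop :=
  (∀ x y z : Bd, Cyc x y z → x ≠ y ∧ y ≠ z ∧ z ≠ x) ∧
  (∀ x y z : Bd, Cyc x y z → Cyc y z x) ∧
  (∀ x y z : Bd, Cyc x y z → ¬ Cyc x z y) ∧
  (∀ x y z : Bd, x ≠ y → y ≠ z → z ≠ x → Cyc x y z ∨ Cyc x z y) ∧
  (∀ x y z w : Bd, Cyc x y z → Cyc x z w → Cyc x y w ∧ Cyc y z w) ∧
  (∀ x y : Bd, x ≠ y → ∃ z, Cyc x z y)

/-- BD5: an element with three fixed points is trivial -/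
def BD5_stmt : Prop := ∀ (g : SL(2, ℝ)) (x y z : Bd), x ≠ y → y ≠ z → z ≠ x →
  g • x = x → g • y = y → g • z = z → PEq g 1

/-- BD6: frames -/
def BD6_stmt : Prop :=
  (∀ p : Bd × Bd, p.1 ≠ p.2 → ∃ F, IsFrame F p) ∧
  (∀ (F : SL(2, ℝ)) (p : Bd × Bd), IsFrame F p → p.1 ≠ p.2) ∧
  (∀ (F F' : SL(2, ℝ)) (p : Bd × Bd), IsFrame F p → IsFrame F' p → ∃ t, PEq F' (F * Dm t)) ∧
  (∀ (F : SL(2, ℝ)) (p : Bd × Bd) (t : ℝ), IsFrame F p → IsFrame (F * Dm t) p) ∧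
  (∀ (F : SL(2, ℝ)) (p : Bd × Bd), IsFrame F p → IsFrame (F * Rm) (p.2, p.1)) ∧
  (∀ (F g : SL(2, ℝ)) (p : Bd × Bd), IsFrame F p → IsFrame (g * F) (g • p.1, g • p.2)) ∧
  (∀ (F : SL(2, ℝ)) (p : Bd × Bd), IsFrame F p → IsFrame (-F) p)

/-- BD7: coordinates in a frame -/
def BD7_stmt : Prop :=
  (∀ (F : SL(2, ℝ)) (p : Bd × Bd) (c : Bd), IsFrame F p →
    (Cyc p.1 c p.2 ↔ ∃ t : ℝ, t < 0 ∧ c = F • bPt t) ∧
    (Cyc p.2 c p.1 ↔ ∃ t : ℝ, 0 < t ∧ c = F • bPt t)) ∧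
  (∀ s t : ℝ, bPt s = bPt t → s = t) ∧ (∀ t : ℝ, bPt t ≠ bInf) ∧ bPt 0 = bZero ∧
  (∀ s t u : ℝ, Cyc (bPt s) (bPt t) (bPt u) ↔
    (s < t ∧ t < u) ∨ (t < u ∧ u < s) ∨ (u < s ∧ s < t)) ∧
  (∀ s t : ℝ, Cyc bInf (bPt s) (bPt t) ↔ s < t) ∧
  (∀ s t : ℝ, Dm s • bPt t = bPt (Real.exp s * t)) ∧
  (∀ s : ℝ, Dm s • bInf = bInf ∧ Dm s • bZero = bZero) ∧
  (∀ c : Bd, c = bInf ∨ ∃ t, c = bPt t)

/-- BD8: hyperbolic elements -/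
def BD8_stmt : Prop :=
  (∀ (g : SL(2, ℝ)) (p : Bd × Bd), Attracts g p ↔
    ∃ (F : SL(2, ℝ)) (t : ℝ), IsFrame F p ∧ 0 < t ∧ PEq g (F * Dm t * F⁻¹)) ∧
  (∀ (g F : SL(2, ℝ)) (p : Bd × Bd), Attracts g p → IsFrame F p →
    pos g = F * Dm (len g) * F⁻¹ ∧ 0 < len g) ∧
  (∀ (g : SL(2, ℝ)) (p q : Bd × Bd), Attracts g p → Attracts g q → p = q) ∧
  (∀ g : SL(2, ℝ), 2 < |trc g| ↔ ∃ p, Attracts g p) ∧
  (∀ (g : SL(2, ℝ)) (x y : Bd), x ≠ y → g • x = x → g • y = y → ¬ PEq g 1 →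
    Attracts g (x, y) ∨ Attracts g (y, x)) ∧
  (∀ (g h : SL(2, ℝ)) (p : Bd × Bd), Attracts g p → Attracts (h * g * h⁻¹) (h • p.1, h • p.2)) ∧
  (∀ (g : SL(2, ℝ)) (p : Bd × Bd), Attracts g p → Attracts g⁻¹ (p.2, p.1)) ∧
  (∀ (g : SL(2, ℝ)) (p : Bd × Bd) (x : Bd), Attracts g p → g • x = x → x = p.1 ∨ x = p.2)

/-- BD9: nested leaves and positive matrices -/
def BD9_stmt : Prop := ∀ (F F' : SL(2, ℝ)) (p q : Bd × Bd), IsFrame F p → IsFrame F' q →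
  (Inside p q ↔ PosMat (F⁻¹ * F') ∨ PosMat (-(F⁻¹ * F')))

/-- BD10: the sign of a pair of pants -/
def BD10_stmt : Prop := ∀ (a x y : SL(2, ℝ)) (p q r : Bd × Bd), Attracts a p → Attracts x q →
  Attracts y r → Facing p q → Facing q r → Facing r p → Cyc p.1 q.1 r.1 →
  PEq (a * x * y) 1 → trc (pos a * pos x) < 0

/-- BD11: transport by an orientation preserving homeomorphism of the circle -/
def BD11_stmt : Prop := ∀ (Γ : Subgroup SL(2, ℝ)) (f : Bd ≃ Bd) (r : SL(2, ℝ) → SL(2, ℝ)),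
  IsConjBy Γ f r →
  (∀ x y z, Cyc (f x) (f y) (f z) ↔ Cyc x y z) ∧
  (∀ x y z w, Linked (f x) (f y) (f z) (f w) ↔ Linked x y z w) ∧
  (∀ p q : Bd × Bd, Facing (f p.1, f p.2) (f q.1, f q.2) ↔ Facing p q) ∧
  (∀ p q : Bd × Bd, Inside (f p.1, f p.2) (f q.1, f q.2) ↔ Inside p q) ∧
  (∀ γ ∈ Γ, ∀ p, Attracts γ p → Attracts (r γ) (f p.1, f p.2)) ∧
  IsPRep Γ r

/-- BD12: positions of two unlinked leaves without common endpoint -/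
def BD12_stmt : Prop :=
  (∀ p q : Bd × Bd, Facing p q ↔ Facing q p) ∧
  (∀ p q : Bd × Bd, Facing p q ↔ Inside p (q.2, q.1)) ∧
  (∀ p q : Bd × Bd, Inside p q ↔ Inside (q.2, q.1) (p.2, p.1)) ∧
  (∀ p q r : Bd × Bd, Inside p q → Inside q r → Inside p r) ∧
  (∀ p q r : Bd × Bd, Inside p q → Facing q r → Facing p r) ∧
  (∀ p q : Bd × Bd, ¬ (Inside p q ∧ Inside q p)) ∧
  (∀ p q : Bd × Bd, ¬ (Inside p q ∧ Facing p q)) ∧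
  (∀ p q : Bd × Bd, p.1 ≠ p.2 → q.1 ≠ q.2 → p.1 ≠ q.1 → p.1 ≠ q.2 → p.2 ≠ q.1 → p.2 ≠ q.2 →
    ¬ Linked p.1 p.2 q.1 q.2 →
    Inside p q ∨ Inside q p ∨ Facing p q ∨ Facing (p.2, p.1) (q.2, q.1)) ∧
  (∀ p q : Bd × Bd, Inside p q → ¬ Linked p.1 p.2 q.1 q.2) ∧
  (∀ x y x' y' : Bd, Linked x y x' y' ↔ Linked x' y' x y) ∧
  (∀ x y x' y' : Bd, Linked x y x' y' ↔ Linked y x x' y')

/-! ### PT: points of the hyperbolic plane -/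

/-- PT1: invariance of the sides -/
def PT1_stmt : Prop := ∀ (g : SL(2, ℝ)) (z : ℍ) (x y : Bd),
  (0 < side (g • z) (g • x) (g • y) ↔ 0 < side z x y) ∧
  (side (g • z) (g • x) (g • y) < 0 ↔ side z x y < 0) ∧
  (side (g • z) (g • x) (g • y) = 0 ↔ side z x y = 0) ∧
  side z y x = - side z x y

/-- PT2: segments -/
def PT2_stmt : Prop :=
  (∀ (z z' : ℍ) (s : ℝ), 0 ≤ s → s ≤ 1 → ∃ w, OnSeg z z' s w) ∧
  (∀ (z z' w : ℍ) (s : ℝ), OnSeg z z' s w → ∀ x y : Bd,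
    side w x y = (1 - s) * side z x y + s * side z' x y) ∧
  (∀ (z z' w w' : ℍ) (s : ℝ), OnSeg z z' s w → OnSeg z z' s w' → w = w') ∧
  (∀ z z' : ℍ, OnSeg z z' 0 z ∧ OnSeg z z' 1 z')

/-- PT3: half planes -/
def PT3_stmt : Prop :=
  (∀ (p q : Bd × Bd) (z : ℍ), Inside p q → 0 ≤ side z p.1 p.2 → 0 < side z q.1 q.2) ∧
  (∀ (p q : Bd × Bd) (z : ℍ), Facing p q → 0 ≤ side z p.1 p.2 → side z q.1 q.2 < 0)

/-- PT4: two geodesics with a common point -/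
def PT4_stmt : Prop := ∀ (p q : Bd × Bd) (z : ℍ), p.1 ≠ p.2 → q.1 ≠ q.2 →
  side z p.1 p.2 = 0 → side z q.1 q.2 = 0 →
  q = p ∨ q = (p.2, p.1) ∨ Linked p.1 p.2 q.1 q.2

/-- PT5: points of geodesics, in frames -/
def PT5_stmt : Prop :=
  (∀ (F : SL(2, ℝ)) (p : Bd × Bd) (z : ℍ), IsFrame F p →
    (side (F • z) p.1 p.2 < 0 ↔ 0 < z.re) ∧ (0 < side (F • z) p.1 p.2 ↔ z.re < 0)) ∧
  (∀ x y : Bd, x ≠ y → ∃ z : ℍ, side z x y = 0) ∧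
  (∀ (t : ℝ) (z : ℍ), ((Dm t • z : ℍ) : ℂ) = Real.exp t * (z : ℂ))

/-- PT6: an ideal triangle not crossed: three distinct ideal points have an interior point that
sees them on the correct sides -/
def PT6_stmt : Prop := ∀ x y z : Bd, Cyc x y z → ∃ w : ℍ,
  side w x y < 0 ∧ side w y z < 0 ∧ side w z x < 0

end

end AdSBend
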