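import Pool.Agent.helper69.AD.GS1

/-!
Statements of the modules GM (the surface group), PN (plaques) and PM (plaque maps).
-/

open scoped MatrixGroups LinearAlgebra.Projectivization
open Matrix UpperHalfPlane

namespace AdSBend

noncomputable section

/-! ### GM: the surface group -/

/-- GM1: closed geodesics have a generator -/
def GM1_stmt : Prop := ∀ Γ : Subgroup SL(2, ℝ), IsClosedSurfaceGroup Γ →
  ∀ p : Bd × Bd, IsClosedGeodesic Γ p.1 p.2 → IsGen Γ p (gen Γ p)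

/-- GM2: uniqueness and equivariance of generators -/
def GM2_stmt : Prop := ∀ Γ : Subgroup SL(2, ℝ), IsClosedSurfaceGroup Γ →
  (∀ p g g', IsGen Γ p g → IsGen Γ p g' → PEq g g') ∧
  (∀ p : Bd × Bd, IsClosedGeodesic Γ p.1 p.2 → ∀ γ ∈ Γ,
    PEq (gen Γ (γ • p.1, γ • p.2)) (γ * gen Γ p * γ⁻¹)) ∧
  (∀ p : Bd × Bd, IsClosedGeodesic Γ p.1 p.2 → PEq (gen Γ (p.2, p.1)) (gen Γ p)⁻¹)

/-- GM3: distinct closed geodesics have no common endpoint -/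
def GM3_stmt : Prop := ∀ Γ : Subgroup SL(2, ℝ), IsClosedSurfaceGroup Γ →
  ∀ x y y' : Bd, IsClosedGeodesic Γ x y → IsClosedGeodesic Γ x y' → y = y'

/-- GM4: local finiteness -/
def GM4_stmt : Prop := ∀ (Γ : Subgroup SL(2, ℝ)), IsClosedSurfaceGroup Γ →
  ∀ (S : LeafSystem Γ) (K : Set ℍ), IsCompact K →
    {p : Bd × Bd | p ∈ S.L ∧ ∃ z ∈ K, side z p.1 p.2 = 0}.Finite

/-- GM5: finitely many leaves separate two points; also for two ideal points and an ideal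
interval: only finitely many leaves are nested between two given leaves -/
def GM5_stmt : Prop := ∀ (Γ : Subgroup SL(2, ℝ)), IsClosedSurfaceGroup Γ →
  ∀ S : LeafSystem Γ,
    (∀ z z' : ℍ, {p : Bd × Bd | p ∈ S.L ∧ SepPts p.1 p.2 z z'}.Finite) ∧
    (∀ z z' : ℍ, {p : Bd × Bd | p ∈ S.L ∧ side z p.1 p.2 * side z' p.1 p.2 ≤ 0}.Finite) ∧
    (∀ p q : Bd × Bd, p.1 ≠ p.2 → q.1 ≠ q.2 →
      {r : Bd × Bd | r ∈ S.L ∧ Inside p r ∧ Inside r q}.Finite)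

/-- GM6: every nontrivial element is hyperbolic -/
def GM6_stmt : Prop := ∀ Γ : Subgroup SL(2, ℝ), IsClosedSurfaceGroup Γ →
  ∀ γ ∈ Γ, ¬ PEq γ 1 → ∃ p : Bd × Bd, Attracts γ p ∧ IsClosedGeodesic Γ p.1 p.2

/-- GM7: translates accumulate only at the endpoints: if `g` attracts `p`, then for every two
points `a`, `b` of the open interval from `p.2` to `p.1` some power of `g` moves `a` beyond `b` -/
def GM7_stmt : Prop := ∀ (g : SL(2, ℝ)) (p : Bd × Bd) (a b : Bd), Attracts g p →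
  Cyc p.2 a p.1 → Cyc p.2 b p.1 →
  (∃ n : ℕ, Cyc p.2 b (g ^ n • a)) ∧ (∃ n : ℕ, Cyc p.2 ((g⁻¹) ^ n • a) b) ∧
  (Cyc p.2 a b → Cyc p.2 (g • a) (g • b)) ∧ Cyc p.2 (g • a) p.1

/-! ### PN: plaques -/

/-- PN1: two distinct leaves of a leaf system (not equal, not opposite) have four distinct
endpoints, hence the four positions of BD12 -/
def PN1_stmt : Prop := ∀ (Γ : Subgroup SL(2, ℝ)), IsClosedSurfaceGroup Γ →
  ∀ S : LeafSystem Γ, ∀ p ∈ S.L, ∀ q ∈ S.L, q ≠ p → q ≠ (p.2, p.1) →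
    Inside p q ∨ Inside q p ∨ Facing p q ∨ Facing (p.2, p.1) (q.2, q.1)

/-- PN2: CoPl is symmetric and invariant -/
def PN2_stmt : Prop := ∀ (Γ : Subgroup SL(2, ℝ)), IsClosedSurfaceGroup Γ →
  ∀ S : LeafSystem Γ,
    (∀ p q, S.CoPl p q → S.CoPl q p) ∧
    (∀ γ ∈ Γ, ∀ p q, S.CoPl p q → S.CoPl (γ • p.1, γ • p.2) (γ • q.1, γ • q.2)) ∧
    (∀ p q r, S.CoPl p q → S.CoPl p r → q ≠ r → S.CoPl q r)

/-- PN3: every leaf is adjacent to points on both sides -/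
def PN3_stmt : Prop := ∀ (Γ : Subgroup SL(2, ℝ)), IsClosedSurfaceGroup Γ →
  ∀ S : LeafSystem Γ, ∀ p ∈ S.L,
    (∃ z, S.Near p z) ∧
    (∀ z z', S.Near p z → S.Near (p.2, p.1) z' → S.Across p z z') ∧
    (∀ z z', S.Near p z → S.Near p z' → S.SamePl z z') ∧
    (∀ z z', S.Near p z → S.OffPt z' → S.SamePl z z' → S.Near p z') ∧
    (∀ z z', S.OffPt z → S.OffPt z' → S.Across p z z' → S.Near p z ∧ S.Near (p.2, p.1) z')

/-- PN4: points and co-plaque leaves -/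
def PN4_stmt : Prop := ∀ (Γ : Subgroup SL(2, ℝ)), IsClosedSurfaceGroup Γ →
  ∀ S : LeafSystem Γ, ∀ p ∈ S.L, ∀ q ∈ S.L, ∀ z, S.Near p z →
    (S.Near q z ↔ q = p ∨ S.CoPl p q)

/-- PN5: SamePl is an equivalence relation on points off the leaves, invariant -/
def PN5_stmt : Prop := ∀ (Γ : Subgroup SL(2, ℝ)) (S : LeafSystem Γ),
  (∀ z z', S.SamePl z z' → S.SamePl z' z) ∧
  (∀ z z' z'', S.OffPt z → S.OffPt z' → S.OffPt z'' → S.SamePl z z' → S.SamePl z' z'' →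
    S.SamePl z z'') ∧
  (∀ γ ∈ Γ, ∀ z, S.OffPt z → S.OffPt (γ • z)) ∧
  (∀ γ ∈ Γ, ∀ z z', S.SamePl z z' → S.SamePl (γ • z) (γ • z')) ∧
  (∀ γ ∈ Γ, ∀ p z z', S.Across p z z' → S.Across (γ • p.1, γ • p.2) (γ • z) (γ • z')) ∧
  (∀ γ ∈ Γ, ∀ p z, S.Near p z → S.Near (γ • p.1, γ • p.2) (γ • z)) ∧
  (∀ p z z', S.Across p z z' → S.Across (p.2, p.1) z' z)

/-- elementary step between points off the leaves -/
def LeafSystem.Step {Γ : Subgroup SL(2, ℝ)} (S : LeafSystem Γ) (z z' : ℍ) : Prop :=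
  S.OffPt z ∧ S.OffPt z' ∧ (S.SamePl z z' ∨ ∃ p, S.Across p z z')

/-- PN6: any two points off the leaves are joined by a chain of elementary steps; the second
form peels off the last leaf -/
def PN6_stmt : Prop := ∀ (Γ : Subgroup SL(2, ℝ)), IsClosedSurfaceGroup Γ →
  ∀ S : LeafSystem Γ,
    (∀ z z', S.OffPt z → S.OffPt z' → Relation.ReflTransGen S.Step z z') ∧
    (∀ z z', S.OffPt z → S.OffPt z' → ¬ S.SamePl z z' →
      ∃ p w, S.OffPt w ∧ S.Across p w z' ∧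
        {q : Bd × Bd | q ∈ S.L ∧ SepPts q.1 q.2 z w} ∪ {p, (p.2, p.1)} =
          {q : Bd × Bd | q ∈ S.L ∧ SepPts q.1 q.2 z z'} ∧
        p ∉ {q : Bd × Bd | q ∈ S.L ∧ SepPts q.1 q.2 z w} ∧
        ∀ p' w', S.OffPt w' → S.Across p' w' z' → FrontPt p' z → p' = p)

/-! ### PM: plaque maps -/

/-- PM1: existence of plaque maps with given jumps -/
def PM1_stmt : Prop := ∀ (Γ : Subgroup SL(2, ℝ)), IsClosedSurfaceGroup Γ →
  ∀ (S : LeafSystem Γ) (E : Bd × Bd → SL(2, ℝ)), (∀ p ∈ S.L, E (p.2, p.1) = (E p)⁻¹) →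
    ∀ z₀ : ℍ, S.OffPt z₀ → ∃ A : ℍ → SL(2, ℝ), S.IsPlaqueMap E A ∧ A z₀ = 1

/-- PM2: uniqueness -/
def PM2_stmt : Prop := ∀ (Γ : Subgroup SL(2, ℝ)), IsClosedSurfaceGroup Γ →
  ∀ (S : LeafSystem Γ) (E : Bd × Bd → SL(2, ℝ)) (A A' : ℍ → SL(2, ℝ)),
    S.IsPlaqueMap E A → S.IsPlaqueMap E A' → ∀ z z', S.OffPt z → S.OffPt z' →
      (A z)⁻¹ * A z' = (A' z)⁻¹ * A' z'

/-- PM3: equivariance and the new representation -/
def PM3_stmt : Prop := ∀ (Γ : Subgroup SL(2, ℝ)), IsClosedSurfaceGroup Γ →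
  ∀ (S : LeafSystem Γ) (E : Bd × Bd → SL(2, ℝ)) (A : ℍ → SL(2, ℝ)) (r : SL(2, ℝ) → SL(2, ℝ)),
    IsPRep Γ r → S.IsPlaqueMap E A →
    (∀ γ ∈ Γ, ∀ p ∈ S.L, E (γ • p.1, γ • p.2) = r γ * E p * (r γ)⁻¹) →
    (∀ γ ∈ Γ, ∀ z z', S.OffPt z → S.OffPt z' →
      A (γ • z) * r γ * (A z)⁻¹ = A (γ • z') * r γ * (A z')⁻¹) ∧
    ∀ z, S.OffPt z → IsPRep Γ (fun γ => A (γ • z) * r γ * (A z)⁻¹)

end

end AdSBend
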