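import Pool.Agent.helper69.AD.GS2

/-!
Statements of the modules HX (hexagon combinatorics), CH (crossing chains), TF, IJ, TW (twists)
and BR (bridge to the final statement).
-/

open scoped MatrixGroups LinearAlgebra.Projectivization
open Matrix UpperHalfPlane

namespace AdSBend

noncomputable section

/-- translate of an oriented leaf -/
abbrev ga (g : SL(2, ℝ)) (p : Bd × Bd) : Bd × Bd := (g • p.1, g • p.2)

/-- the reversed oriented leaf -/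
abbrev sw (p : Bd × Bd) : Bd × Bd := (p.2, p.1)

open LeafSystem

/-! ### HX: hexagons -/

/-- HX1: elementary properties -/
def HX1_stmt : Prop := ∀ (Γ : Subgroup SL(2, ℝ)), IsClosedSurfaceGroup Γ → ∀ S : LeafSystem Γ,
  (∀ p q r, S.Hex p q r → S.Hex q r p) ∧
  (∀ p q r, S.Hex p q r → S.Hex p r (ga (gen Γ p) q)) ∧
  (∀ p q r, S.Hex p q r → S.Hex p (ga (gen Γ p)⁻¹ r) q) ∧
  (∀ γ ∈ Γ, ∀ p q r, S.Hex p q r → S.Hex (ga γ p) (ga γ q) (ga γ r)) ∧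
  (∀ p q r r', S.Hex p q r → S.Hex p q r' → r = r') ∧
  (∀ p q r, S.Hex p q r → ga (gen Γ q)⁻¹ p = ga (gen Γ r) p) ∧
  (∀ p q r u v w, S.Hex p q r → HexConn Γ (p, q, r) (u, v, w) →
    S.Hex u v w ∧ (u = p ∨ S.CoPl p u))

/-- HX2: planarity: seams of connected hexagons do not cross -/
def HX2_stmt : Prop := ∀ (Γ : Subgroup SL(2, ℝ)), IsClosedSurfaceGroup Γ → ∀ S : LeafSystem Γ,
  ∀ p q r u v w, S.Hex p q r → HexConn Γ (p, q, r) (u, v, w) → ¬ Linked p.1 q.1 u.1 v.1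

/-- HX3: connectedness is symmetric and equivariant -/
def HX3_stmt : Prop := ∀ (Γ : Subgroup SL(2, ℝ)), IsClosedSurfaceGroup Γ → ∀ S : LeafSystem Γ,
  (∀ h h', HexConn Γ h h' → HexConn Γ h' h) ∧
  (∀ γ ∈ Γ, ∀ p q r u v w, S.Hex p q r → HexConn Γ (p, q, r) (u, v, w) →
    HexConn Γ (ga γ p, ga γ q, ga γ r) (ga γ u, ga γ v, ga γ w))

/-- HX4: in a pair of pants the generators of the boundary leaves preserve the component of a
hexagon -/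
def HX4_stmt : Prop := ∀ (Γ : Subgroup SL(2, ℝ)), IsClosedSurfaceGroup Γ → ∀ S : LeafSystem Γ,
  S.IsPants → ∀ p q r, S.Hex p q r → ∀ s, (s = p ∨ S.CoPl p s) →
    HexConn Γ (p, q, r) (ga (gen Γ s) p, ga (gen Γ s) q, ga (gen Γ s) r)

/-- HX5: positions of the co-plaque leaves with respect to the neighbours of `p` -/
def HX5_stmt : Prop := ∀ (Γ : Subgroup SL(2, ℝ)), IsClosedSurfaceGroup Γ → ∀ S : LeafSystem Γ,
  ∀ p x y, S.Hex p x y → ∀ s, S.CoPl p s →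
    ∃ x' y', S.Hex p x' y' ∧ HexConn Γ (p, x, y) (p, x', y') ∧
      (s = x' ∨ Cyc x'.1 s.1 y'.1)

/-- HX6: the three sides of a hexagon are not equivalent -/
def HX6_stmt : Prop := ∀ (Γ : Subgroup SL(2, ℝ)), IsClosedSurfaceGroup Γ → ∀ S : LeafSystem Γ,
  S.IsPants → ∀ p q r, S.Hex p q r → ∀ γ ∈ Γ, ga γ p ≠ q ∧ ga γ p ≠ r

/-- HX7: uniqueness of the hexagons at a leaf, and connectedness -/
def HX7_stmt : Prop := ∀ (Γ : Subgroup SL(2, ℝ)), IsClosedSurfaceGroup Γ → ∀ S : LeafSystem Γ,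
  S.IsPants →
  (∀ p x y u v, S.Hex p x y → S.Hex p u v → ∃ n : ℤ,
    (u = ga (gen Γ p ^ n) x ∧ v = ga (gen Γ p ^ n) y) ∨
    (u = ga (gen Γ p ^ n) y ∧ v = ga (gen Γ p ^ (n + 1)) x)) ∧
  (∀ p q r u v w, S.Hex p q r → S.Hex u v w → (u = p ∨ S.CoPl p u) →
    HexConn Γ (p, q, r) (u, v, w) ∧ ¬ Linked p.1 q.1 u.1 v.1)

/-- HX8: classification of simple arcs in a pair of pants -/
def HX8_stmt : Prop := ∀ (Γ : Subgroup SL(2, ℝ)), IsClosedSurfaceGroup Γ → ∀ S : LeafSystem Γ,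
  S.IsPants → ∀ (p u : Bd × Bd) (a b : Bd), S.CoPl p u → Behind p a → Behind u b →
    (∀ γ ∈ Γ, ¬ Linked a b (γ • a) (γ • b)) →
    (∃ r, S.Hex p u r ∨ S.Hex u p r) ∨ (∃ x y, S.Hex p x y ∧ u = ga (gen Γ y) p)

/-! ### CH: crossing chains -/

/-- CH1: the leaves of `S` crossed by a closed geodesic `l` that crosses at least one of them, in
their order from the repelling point `l.2` to the attracting point `l.1` of the generator -/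
def CH1_stmt : Prop := ∀ (Γ : Subgroup SL(2, ℝ)), IsClosedSurfaceGroup Γ → ∀ S : LeafSystem Γ,
  ∀ l : Bd × Bd, IsClosedGeodesic Γ l.1 l.2 → (∃ p ∈ S.L, Linked l.1 l.2 p.1 p.2) →
    ∃ (n : ℕ) (A : ℤ → Bd × Bd),
      (∀ i, A i ∈ S.L ∧ Behind (A i) l.2 ∧ Behind (sw (A i)) l.1) ∧
      (∀ i, S.CoPl (A i) (sw (A (i + 1)))) ∧
      (∀ i j, i < j → Inside (A i) (A j)) ∧
      (∀ i, A (i + n + 1) = ga (gen Γ l) (A i)) ∧
      (∀ p ∈ S.L, Behind p l.2 → Behind (sw p) l.1 → ∃ i, p = A i)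

/-- CH2: a linked leaf has exactly one orientation with the repelling point behind it -/
def CH2_stmt : Prop := ∀ (l p : Bd × Bd), Linked l.1 l.2 p.1 p.2 ↔
  (Behind p l.2 ∧ Behind (sw p) l.1) ∨ (Behind (sw p) l.2 ∧ Behind p l.1)

/-! ### TF, IJ: admissible representations -/

/-- TF1: representations of Teichmueller space are admissible -/
def TF1_stmt : Prop := ∀ (Γ : Subgroup SL(2, ℝ)), IsClosedSurfaceGroup Γ → ∀ S : LeafSystem Γ,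
  ∀ (f : Bd ≃ Bd) (r : SL(2, ℝ) → SL(2, ℝ)), IsConjBy Γ f r → S.Adm r

/-- IJ1: an admissible representation is determined by its lengths and twist parameters -/
def IJ1_stmt : Prop := ∀ (Γ : Subgroup SL(2, ℝ)), IsClosedSurfaceGroup Γ → ∀ S : LeafSystem Γ,
  S.IsPants → S.L.Nonempty → ∀ r r' : SL(2, ℝ) → SL(2, ℝ), S.Adm r → S.Adm r' →
    (∀ p ∈ S.L, len (r (gen Γ p)) = len (r' (gen Γ p))) →
    (∀ p u v F G F' G' t, S.Seam p u → S.Seam (sw p) v →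
      IsSeamFrame (r (gen Γ p)) (r (gen Γ u)) F →
      IsSeamFrame (r (gen Γ (sw p))) (r (gen Γ v)) G →
      IsSeamFrame (r' (gen Γ p)) (r' (gen Γ u)) F' →
      IsSeamFrame (r' (gen Γ (sw p))) (r' (gen Γ v)) G' →
      PEq F (G * Rm * Dm t) → PEq F' (G' * Rm * Dm t)) →
    ∃ g : SL(2, ℝ), ∀ γ ∈ Γ, PEq (r' γ) (g * r γ * g⁻¹)

/-! ### TW: twists -/

open Classical in
/-- translation by `s` along the axis of `g`, in the attracting direction -/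
def twS (g : SL(2, ℝ)) (s : ℝ) : SL(2, ℝ) :=
  if h : (Real.cosh (s / 2) • (1 : Matrix (Fin 2) (Fin 2) ℝ) + Real.sinh (s / 2) • axis g).det = 1
  then ⟨_, h⟩ else 1

/-- diag (1, -1) -/
def hM : Matrix (Fin 2) (Fin 2) ℝ := !![1, 0; 0, -1]

/-- TW1: formulas for `twS` and `axis` -/
def TW1_stmt : Prop :=
  (∀ (g F : SL(2, ℝ)) (p : Bd × Bd) (s : ℝ), Attracts g p → IsFrame F p →
    twS g s = F * Dm s * F⁻¹ ∧ axis g = F.1 * hM * (F⁻¹).1 ∧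
    (twS g s).1 = Real.cosh (s / 2) • (1 : Matrix (Fin 2) (Fin 2) ℝ)
      + Real.sinh (s / 2) • axis g) ∧
  (∀ (g h : SL(2, ℝ)) (s : ℝ), 2 < |trc g| → twS (h * g * h⁻¹) s = h * twS g s * h⁻¹ ∧
    axis (h * g * h⁻¹) = h.1 * axis g * (h⁻¹).1) ∧
  (∀ (g : SL(2, ℝ)) (s t : ℝ), 2 < |trc g| → twS g⁻¹ s = twS g (-s) ∧ axis g⁻¹ = - axis g ∧
    twS (-g) s = twS g s ∧ axis (-g) = axis g ∧ twS g (s + t) = twS g s * twS g t ∧
    twS g 0 = 1 ∧ (twS g s)⁻¹ = twS g (-s)) ∧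
  (∀ g : SL(2, ℝ), 2 < |trc g| → (pos g).1 =
    Real.cosh (len g / 2) • (1 : Matrix (Fin 2) (Fin 2) ℝ) + Real.sinh (len g / 2) • axis g ∧
    (axis g).trace = 0 ∧ (axis g).det = -1 ∧ 0 < len g ∧ |trc g| = 2 * Real.cosh (len g / 2))

/-- `A` is the plaque map of the left twist deformation of `r` along the leaves `p` of `S` with
parameters `T p`, normalised at `z₀` -/
def LeafSystem.IsTwist {Γ : Subgroup SL(2, ℝ)} (S : LeafSystem Γ) (r : SL(2, ℝ) → SL(2, ℝ))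
    (T : Bd × Bd → ℝ) (z₀ : ℍ) (A : ℍ → SL(2, ℝ)) : Prop :=
  S.IsPlaqueMap (fun p => twS (r (gen Γ p)) (-T p)) A ∧ A z₀ = 1

/-- TW2: twist deformations exist and give representations; leaves keep their lengths -/
def TW2_stmt : Prop := ∀ (Γ : Subgroup SL(2, ℝ)), IsClosedSurfaceGroup Γ → ∀ S : LeafSystem Γ,
  ∀ (r : SL(2, ℝ) → SL(2, ℝ)) (T : Bd × Bd → ℝ) (z₀ : ℍ), IsPRep Γ r →
    (∀ p ∈ S.L, 2 < |trc (r (gen Γ p))|) → (∀ γ ∈ Γ, ∀ p ∈ S.L, T (ga γ p) = T p) →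
    (∀ p ∈ S.L, T (sw p) = T p) → S.OffPt z₀ →
    (∃ A, S.IsTwist r T z₀ A) ∧
    (∀ A, S.IsTwist r T z₀ A →
      IsPRep Γ (fun γ => A (γ • z₀) * r γ) ∧
      (∀ γ ∈ Γ, ∀ z, S.OffPt z → PEq (A (γ • z) * r γ * (A z)⁻¹) (A (γ • z₀) * r γ)) ∧
      (∀ p ∈ S.L, ∀ z, S.Near p z →
        PEq (A (gen Γ p • z₀) * r (gen Γ p)) (A z * r (gen Γ p) * (A z)⁻¹)) ∧
      (∀ γ ∈ Γ, ∀ z, S.OffPt z → S.SamePl z (γ • z) →
        PEq (A (γ • z₀) * r γ) (A z * r γ * (A z)⁻¹)) ∧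
      (T = 0 → ∀ z, S.OffPt z → A z = 1))

/-- TW3: dependence on the parameters: smoothness and derivative -/
def TW3_stmt : Prop := ∀ (Γ : Subgroup SL(2, ℝ)), IsClosedSurfaceGroup Γ → ∀ S : LeafSystem Γ,
  ∀ (K : Type) [Fintype K] [DecidableEq K] (cls : Bd × Bd → K) (r : SL(2, ℝ) → SL(2, ℝ))
    (z₀ : ℍ) (A : (K → ℝ) → ℍ → SL(2, ℝ)) (Ax : (K → ℝ) → Bd × Bd → Matrix (Fin 2) (Fin 2) ℝ),
    IsPRep Γ r → (∀ p ∈ S.L, 2 < |trc (r (gen Γ p))|) →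
    (∀ γ ∈ Γ, ∀ p ∈ S.L, cls (ga γ p) = cls p) → (∀ p ∈ S.L, cls (sw p) = cls p) →
    S.OffPt z₀ → (∀ T, S.IsTwist r (fun p => T (cls p)) z₀ (A T)) →
    (∀ T, ∀ p ∈ S.L, ∀ w, S.Near p w →
      Ax T p = (A T w).1 * axis (r (gen Γ p)) * ((A T w)⁻¹).1) →
    ∀ z, S.OffPt z →
      (∀ i j, ContDiff ℝ 3 (fun T : K → ℝ => (A T z).1 i j)) ∧
      {p : Bd × Bd | p ∈ S.L ∧ FrontPt p z₀ ∧ BehindPt p z}.Finite ∧
      (∀ T k i j, HasDerivAt (fun s : ℝ => (A (T + s • Pi.single k 1) z).1 i j)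
        (((∑ᶠ p ∈ {p : Bd × Bd | p ∈ S.L ∧ FrontPt p z₀ ∧ BehindPt p z ∧ cls p = k},
          (-(1 / 2) : ℝ) • Ax T p) * (A T z).1) i j) 0) ∧
      (∀ T, ∀ p ∈ S.L, Ax T (sw p) = - Ax T p)

/-! ### BR: bridge -/

/-- a left earthquake along the weighted leaves `(S, ω)` from the structure `(f, r)` to the
structure `f'`: plaque map with the jumps of a left twist that agrees with `f' ∘ f⁻¹` on the ideal
points of each plaque -/
def LeafSystem.IsQuake {Γ : Subgroup SL(2, ℝ)} (S : LeafSystem Γ) (ω : Bd × Bd → ℝ)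
    (f f' : Bd ≃ Bd) (r : SL(2, ℝ) → SL(2, ℝ)) (B : ℍ → SL(2, ℝ)) : Prop :=
  S.IsPlaqueMap (fun p => twS (r (gen Γ p)) (-ω p)) B ∧
    ∀ z, S.OffPt z → ∀ c, (∀ p ∈ S.L, ¬ SepIdeal p.1 p.2 z c) → B z • f c = f' c

/-- BR1: lifts of a marked structure -/
def BR1_stmt : Prop := ∀ (Γ : Subgroup SL(2, ℝ)) (h : MarkedStructure Γ),
  ∃ r : SL(2, ℝ) → SL(2, ℝ), IsConjBy Γ h.bd r ∧
    ∀ γ : Γ, ((r (γ : SL(2, ℝ)) : SL(2, ℝ)) : PSL(2, ℝ)) = h.hol γ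

/-- BR2: the leaf system of a weighted multicurve -/
def BR2_stmt : Prop := ∀ (Γ : Subgroup SL(2, ℝ)) (l : WeightedMulticurve Γ),
  ∃ S : LeafSystem Γ, ∀ p : Bd × Bd, p ∈ S.L ↔ l.w p.1 p.2 ≠ 0

/-- BR3: past bending is a left earthquake from the left to the right structure -/
def BR3_stmt : Prop := ∀ (Γ : Subgroup SL(2, ℝ)), IsClosedSurfaceGroup Γ → ∀ S : LeafSystem Γ,
  (∀ p ∈ S.L, ∃ q, S.CoPl p q) → S.L.Nonempty →
  ∀ (M : GHMC Γ) (l : WeightedMulticurve Γ) (r : SL(2, ℝ) → SL(2, ℝ)),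
    (∀ x y, l.w x y ≠ 0 → (x, y) ∈ S.L) → IsConjBy Γ M.left.bd r → M.PastBending l →
    ∃ B, S.IsQuake (fun p => 2 * l.w p.1 p.2) M.left.bd M.right.bd r B

/-- BR4: future bending is a left earthquake from the right to the left structure -/
def BR4_stmt : Prop := ∀ (Γ : Subgroup SL(2, ℝ)), IsClosedSurfaceGroup Γ → ∀ S : LeafSystem Γ,
  (∀ p ∈ S.L, ∃ q, S.CoPl p q) → S.L.Nonempty →
  ∀ (M : GHMC Γ) (l : WeightedMulticurve Γ) (r : SL(2, ℝ) → SL(2, ℝ)),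
    (∀ x y, l.w x y ≠ 0 → (x, y) ∈ S.L) → IsConjBy Γ M.right.bd r → M.FutureBending l →
    ∃ B, S.IsQuake (fun p => 2 * l.w p.1 p.2) M.right.bd M.left.bd r B

/-- BR5: the representation after an earthquake -/
def BR5_stmt : Prop := ∀ (Γ : Subgroup SL(2, ℝ)), IsClosedSurfaceGroup Γ → ∀ S : LeafSystem Γ,
  (∀ p ∈ S.L, ∃ q, S.CoPl p q) → S.L.Nonempty →
  ∀ (ω : Bd × Bd → ℝ) (f f' : Bd ≃ Bd) (r r' : SL(2, ℝ) → SL(2, ℝ)) (B : ℍ → SL(2, ℝ)),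
    IsConjBy Γ f r → IsConjBy Γ f' r' → S.IsQuake ω f f' r B →
    ∀ γ ∈ Γ, ∀ z, S.OffPt z → PEq (r' γ) (B (γ • z) * r γ * (B z)⁻¹)

/-- QC1: an earthquake along `S` in the coordinates of `S`: seam frames move with the plaque map,
lengths are fixed, twists are shifted by the weights -/
def QC1_stmt : Prop := ∀ (Γ : Subgroup SL(2, ℝ)), IsClosedSurfaceGroup Γ → ∀ S : LeafSystem Γ,
  S.IsPants → S.L.Nonempty →
  ∀ (ω : Bd × Bd → ℝ) (f f' : Bd ≃ Bd) (r r' : SL(2, ℝ) → SL(2, ℝ)) (B : ℍ → SL(2, ℝ)),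
    IsConjBy Γ f r → IsConjBy Γ f' r' → S.IsQuake ω f f' r B →
    (∀ p ∈ S.L, len (r' (gen Γ p)) = len (r (gen Γ p))) ∧
    (∀ p u F z, S.CoPl p u → S.Near p z → IsSeamFrame (r (gen Γ p)) (r (gen Γ u)) F →
      IsSeamFrame (r' (gen Γ p)) (r' (gen Γ u)) (B z * F)) ∧
    (∀ p z z' F G t, S.Near p z → S.Near (sw p) z' → IsFrame F (f p.1, f p.2) →
      PEq F (G * Rm * Dm t) → PEq (B z * F) ((B z' * G) * Rm * Dm (t + ω p)))

end

end AdSBend
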