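import Pool.Agent.helper69.AD.GS3

/-!
Statements of the modules CL: every multicurve is contained in a pants decomposition.
-/

open scoped MatrixGroups LinearAlgebra.Projectivization
open Matrix UpperHalfPlane

namespace AdSBend

noncomputable section

open LeafSystem

/-- `S` is a maximal leaf system: it contains every simple closed geodesic that crosses none of
its leaves -/
def LeafSystem.IsMax {Γ : Subgroup SL(2, ℝ)} (S : LeafSystem Γ) : Prop :=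
  ∀ p : Bd × Bd, IsSimpleClosedGeodesic Γ p.1 p.2 → (∀ q ∈ S.L, ¬ Linked p.1 p.2 q.1 q.2) →
    p ∈ S.L

/-- the nontrivial elements of the stabiliser of the plaque of `z₀` whose axis is not a leaf -/
def LeafSystem.EP {Γ : Subgroup SL(2, ℝ)} (S : LeafSystem Γ) (z₀ : ℍ) : Set SL(2, ℝ) :=
  {γ | γ ∈ Γ ∧ S.SamePl z₀ (γ • z₀) ∧ ¬ PEq γ 1 ∧ ∀ p, Attracts γ p → p ∉ S.L}

/-- `γ` has minimal translation length in `EP` -/
def LeafSystem.IsMinEP {Γ : Subgroup SL(2, ℝ)} (S : LeafSystem Γ) (z₀ : ℍ) (γ : SL(2, ℝ)) :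
    Prop := γ ∈ S.EP z₀ ∧ ∀ δ ∈ S.EP z₀, |trc γ| ≤ |trc δ|

/-- CLA: the surface group is finitely generated -/
def CLA_stmt : Prop := ∀ Γ : Subgroup SL(2, ℝ), IsClosedSurfaceGroup Γ →
  ∃ s : Finset SL(2, ℝ), (∀ γ ∈ s, γ ∈ Γ) ∧ Γ = Subgroup.closure (s : Set SL(2, ℝ))

/-- CLB: bound for the number of components of a multicurve -/
def CLB_stmt : Prop := ∀ Γ : Subgroup SL(2, ℝ), IsClosedSurfaceGroup Γ →
  ∃ N : ℕ, ∀ S : LeafSystem Γ, ∀ t : Finset (Bd × Bd), (∀ p ∈ t, p ∈ S.L) →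
    (∀ p ∈ t, ∀ q ∈ t, p ≠ q → ∀ γ ∈ Γ, ga γ p ≠ q ∧ ga γ p ≠ sw q) → t.card ≤ N

/-- CLC: every multicurve is contained in a maximal one -/
def CLC_stmt : Prop := ∀ Γ : Subgroup SL(2, ℝ), IsClosedSurfaceGroup Γ →
  ∀ S₀ : LeafSystem Γ, ∃ S : LeafSystem Γ, S₀.L ⊆ S.L ∧ S.IsMax

/-- CLD: every set of elements of the group contains one with minimal trace -/
def CLD_stmt : Prop := ∀ Γ : Subgroup SL(2, ℝ), IsClosedSurfaceGroup Γ →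
  ∀ E : Set SL(2, ℝ), (∀ γ ∈ E, γ ∈ Γ) → E.Nonempty → ∃ γ ∈ E, ∀ δ ∈ E, |trc γ| ≤ |trc δ|

/-- CLE: splitting a closed geodesic at a self-intersection -/
def CLE_stmt : Prop := ∀ (γ h : SL(2, ℝ)) (p : Bd × Bd), Attracts γ p →
  Linked p.1 p.2 (h • p.1) (h • p.2) → (∀ (n : ℤ) (z : ℍ), (γ ^ n * h⁻¹) • z ≠ z) →
  ∃ n : ℤ, |trc (γ ^ n * h⁻¹)| < |trc γ| ∧ |trc ((γ ^ n * h⁻¹)⁻¹ * γ)| < |trc γ| ∧
    |trc ((γ ^ n * h⁻¹)⁻¹ * (γ ^ n * h⁻¹)⁻¹ * γ)| < |trc γ|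

/-- CLF: products of elements with facing axes: traces, and the figure eight is not simple -/
def CLF_stmt : Prop := ∀ (a x : SL(2, ℝ)) (p q : Bd × Bd), Attracts a p → Attracts x q →
  Facing p q →
  (∃ C : ℝ, 1 < C ∧ ∀ m n : ℕ, 1 ≤ m → 1 ≤ n →
    trc (pos (a ^ m) * pos (x ^ n)) =
      2 * (Real.cosh (m * len a / 2) * Real.cosh (n * len x / 2)
        - Real.sinh (m * len a / 2) * Real.sinh (n * len x / 2) * C) ∧
    |trc (a ^ m * (x ^ n)⁻¹)| =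
      2 * (Real.cosh (m * len a / 2) * Real.cosh (n * len x / 2)
        + Real.sinh (m * len a / 2) * Real.sinh (n * len x / 2) * C) ∧
    |trc ((a ^ m)⁻¹ * x ^ n)| =
      2 * (Real.cosh (m * len a / 2) * Real.cosh (n * len x / 2)
        + Real.sinh (m * len a / 2) * Real.sinh (n * len x / 2) * C)) ∧
  (∃ s : Bd × Bd, Attracts (a * x⁻¹) s ∧ Linked s.1 s.2 (a⁻¹ • s.1) (a⁻¹ • s.2))

/-- CLG: every leaf has a co-plaque leaf; every point is near a leaf -/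
def CLG_stmt : Prop := ∀ Γ : Subgroup SL(2, ℝ), IsClosedSurfaceGroup Γ →
  ∀ S : LeafSystem Γ, (∀ p ∈ S.L, ∃ q, S.CoPl p q) ∧
    (S.L.Nonempty → ∀ z, S.OffPt z → ∃ p, p ∈ S.L ∧ S.Near p z)

/-- CLH: axes of elements of the stabiliser of a plaque -/
def CLH_stmt : Prop := ∀ Γ : Subgroup SL(2, ℝ), IsClosedSurfaceGroup Γ →
  ∀ (S : LeafSystem Γ) (z₀ : ℍ), S.OffPt z₀ → ∀ γ ∈ Γ, S.SamePl z₀ (γ • z₀) →
    ∀ p, Attracts γ p →
      (∀ q ∈ S.L, ¬ Linked p.1 p.2 q.1 q.2) ∧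
      (p ∈ S.L → S.Near p z₀ ∨ S.Near (sw p) z₀) ∧
      (∀ h ∈ Γ, Linked p.1 p.2 (h • p.1) (h • p.2) → S.SamePl z₀ (h • z₀))

/-- CLI: elements of the stabiliser of a plaque whose axis is not a leaf exist -/
def CLI_stmt : Prop := ∀ Γ : Subgroup SL(2, ℝ), IsClosedSurfaceGroup Γ →
  ∀ (S : LeafSystem Γ) (z₀ : ℍ), S.OffPt z₀ → (S.EP z₀).Nonempty

/-- CLJ: the shortest such element splits into two peripheral ones, and the third curve is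
peripheral too -/
def CLJ_stmt : Prop := ∀ Γ : Subgroup SL(2, ℝ), IsClosedSurfaceGroup Γ →
  ∀ (S : LeafSystem Γ) (z₀ : ℍ), S.IsMax → S.OffPt z₀ → ∀ γ, S.IsMinEP z₀ γ →
    ∃ a x y : SL(2, ℝ), a ∈ Γ ∧ x ∈ Γ ∧ y ∈ Γ ∧ a * x * y = 1 ∧ γ = a⁻¹ * x ∧
      |trc y| < |trc γ| ∧
      S.SamePl z₀ (a • z₀) ∧ S.SamePl z₀ (x • z₀) ∧ S.SamePl z₀ (y • z₀) ∧
      (∃ p, S.Near p z₀ ∧ p ∈ S.L ∧ (Attracts a p ∨ Attracts a (sw p))) ∧
      (∃ p, S.Near p z₀ ∧ p ∈ S.L ∧ (Attracts x p ∨ Attracts x (sw p))) ∧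
      (∃ p, S.Near p z₀ ∧ p ∈ S.L ∧ (Attracts y p ∨ Attracts y (sw p)))

/-- CLK: every plaque of a maximal system contains a hexagon -/
def CLK_stmt : Prop := ∀ Γ : Subgroup SL(2, ℝ), IsClosedSurfaceGroup Γ →
  ∀ (S : LeafSystem Γ) (z₀ : ℍ), S.IsMax → S.OffPt z₀ → ∃ p q r, S.Hex p q r ∧ S.Near p z₀

/-- CLL: the hexagons connected to a given one reach all leaves of the plaque -/
def CLL_stmt : Prop := ∀ Γ : Subgroup SL(2, ℝ), IsClosedSurfaceGroup Γ →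
  ∀ S : LeafSystem Γ, ∀ p q r, S.Hex p q r → ∀ s, S.CoPl p s →
    ∃ u v, HexConn Γ (p, q, r) (s, u, v)

/-- CLM: every multicurve is contained in a pants decomposition -/
def CLM_stmt : Prop := ∀ Γ : Subgroup SL(2, ℝ), IsClosedSurfaceGroup Γ →
  ∀ S₀ : LeafSystem Γ, ∃ S : LeafSystem Γ, S₀.L ⊆ S.L ∧ S.IsPants ∧ S.L.Nonempty

end

end AdSBend
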