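import Pool.Agent.helper69.AD.GS4
import Pool.Agent.helper73.AD.Card

/-!
Statements of the modules FA (algebra of seam frames), FB (admissible representations and
coordinates), FC (words and the trace formula), FD (chains of the twist deformation), FE (families
and the final assembly).

Index conventions: a Boolean `true` corresponds to the index `0`, `false` to the index `1`.
-/

open scoped MatrixGroups LinearAlgebra.Projectivization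
open Matrix UpperHalfPlane
open Pool.Agent.helper73.AD (PS Arc Word sg AData Family PreFamily Cone bs)

namespace AdSBend

noncomputable section

open LeafSystem

/-- `r` is admissible for the leaf system, with the orientation condition: the seams of the
hexagons exist as oriented seam frames (in front of the leaves) -/
def LeafSystem.AdmS {Γ : Subgroup SL(2, ℝ)} (S : LeafSystem Γ) (r : SL(2, ℝ) → SL(2, ℝ)) : Prop :=
  S.Adm r ∧ ∀ p q s, S.Hex p q s → ∃ F, IsSeamFrame (r (gen Γ p)) (r (gen Γ q)) F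

/-! ### FA: algebra of seam frames -/

/-- matrix index of a Boolean -/
def bi (s : Bool) : Fin 2 := if s then 0 else 1

/-- length of the seam between the cuffs of length `l₁`, `l₂` of a pair of pants with third
length `l₃` -/
def sd (l₁ l₂ l₃ : ℝ) : ℝ :=
  Real.arcosh ((Real.cosh (l₃ / 2) + Real.cosh (l₁ / 2) * Real.cosh (l₂ / 2)) /
    (Real.sinh (l₁ / 2) * Real.sinh (l₂ / 2)))

/-- `F` is the frame of the seam from the axis of `a` to the axis of `x`, of length `d` -/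
def SeamD (a x F : SL(2, ℝ)) (d : ℝ) : Prop :=
  0 < d ∧ pos a = F * Dm (len a) * F⁻¹ ∧ pos x = F * Em d * Dm (-len x) * Em (-d) * F⁻¹

/-- matrix of an arc -/
def arcM {J : Type} : Arc J → (J → ℝ) → SL(2, ℝ)
  | Arc.seam a b c, q => Em (sd (q a) (q b) (q c))
  | Arc.wave a b c, q =>
      -(Em (sd (q a) (q b) (q c)) * Dm (-q b) * Em (-sd (q a) (q b) (q c)) * Rm)

/-- FA0: relations between the standard matrices -/
def FA0_stmt : Prop :=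
  (∀ s t, Dm s * Dm t = Dm (s + t)) ∧ Dm 0 = 1 ∧ (∀ s, (Dm s)⁻¹ = Dm (-s)) ∧
  (∀ s t, Em s * Em t = Em (s + t)) ∧ Em 0 = 1 ∧ (∀ s, (Em s)⁻¹ = Em (-s)) ∧
  Rm * Rm = -1 ∧ Rm⁻¹ = -Rm ∧ (∀ s, Rm * Dm s = Dm (-s) * Rm) ∧
  (∀ s, Rm * Em s = Em (-s) * Rm)

/-- FA1: uniqueness and invariance of seam frames -/
def FA1_stmt : Prop :=
  (∀ a x F F' : SL(2, ℝ), 2 < |trc a| → 2 < |trc x| → IsSeamFrame a x F → IsSeamFrame a x F' →
    PEq F' F) ∧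
  (∀ a x F a' x' F' : SL(2, ℝ), 2 < |trc a| → 2 < |trc x| → PEq a' a → PEq x' x → PEq F' F →
    IsSeamFrame a x F → IsSeamFrame a' x' F') ∧
  (∀ a x F g : SL(2, ℝ), IsSeamFrame a x F → IsSeamFrame (g * a * g⁻¹) (g * x * g⁻¹) (g * F)) ∧
  (∀ (a x F : SL(2, ℝ)) (p : Bd × Bd), 2 < |trc a| → IsSeamFrame a x F → Attracts a p →
    IsFrame F p) ∧
  (∀ a x F : SL(2, ℝ), IsSeamFrame a x F ↔ ∃ d, SeamD a x F d) ∧
  (∀ a g : SL(2, ℝ), 2 < |trc a| → len (g * a * g⁻¹) = len a ∧ len a⁻¹ = len a ∧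
    len (-a) = len a ∧ pos (g * a * g⁻¹) = g * pos a * g⁻¹ ∧ pos a⁻¹ = (pos a)⁻¹ ∧
    pos (-a) = pos a ∧ 0 < len a)

/-- FA2: existence of seam frames; the trace of a product -/
def FA2_stmt : Prop :=
  (∀ a x : SL(2, ℝ), 2 < |trc a| → 2 < |trc x| →
    trc (pos a * pos x) = 2 * (Real.cosh (len a / 2) * Real.cosh (len x / 2)
      + Real.sinh (len a / 2) * Real.sinh (len x / 2) * ip (axis a) (axis x))) ∧
  (∀ a x F : SL(2, ℝ), ∀ d, 2 < |trc a| → 2 < |trc x| → SeamD a x F d →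
    ip (axis a) (axis x) = -Real.cosh d) ∧
  (∀ a x : SL(2, ℝ), 2 < |trc a| → 2 < |trc x| → ip (axis a) (axis x) < -1 →
    (axis a + axis x) 0 1 - (axis a + axis x) 1 0 ≠ 0 ∧
    ((∃ F, IsSeamFrame a x F) ↔ 0 < (axis a + axis x) 0 1 - (axis a + axis x) 1 0)) ∧
  (∀ (a x : SL(2, ℝ)) (p q : Bd × Bd), Attracts a p → Attracts x q →
    ((∃ F, IsSeamFrame a x F) ↔ Facing p q)) ∧
  (∀ a x F : SL(2, ℝ), ∀ d, SeamD a x F d → SeamD x a (F * Em d * Rm) d)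

/-- FA3: seam frames of a pair of pants -/
def FA3_stmt : Prop := ∀ a x y F : SL(2, ℝ), 2 < |trc a| → 2 < |trc x| → 2 < |trc y| →
  PEq (a * x * y) 1 → trc (pos a * pos x) < 0 → IsSeamFrame a x F →
  pos a * pos x * pos y = -1 ∧ trc (pos x * pos y) < 0 ∧ trc (pos y * pos a) < 0 ∧
  0 < sd (len a) (len x) (len y) ∧
  SeamD a x F (sd (len a) (len x) (len y)) ∧
  SeamD x a (F * Em (sd (len a) (len x) (len y)) * Rm) (sd (len a) (len x) (len y)) ∧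
  IsSeamFrame a y (F * Dm (len a / 2)) ∧
  (∃ F, IsSeamFrame x y F) ∧ (∃ F, IsSeamFrame y a F) ∧ (∃ F, IsSeamFrame y x F)

/-- FA4: the entries of the arc matrices -/
def FA4_stmt : Prop := ∀ (J : Type) (a : Arc J) (q : J → ℝ), (∀ j, 0 < q j) → ∀ s s',
  (arcM a q).1 (bi s) (bi s') = Real.exp (a.g s s' q)

/-! ### FB: admissible representations and coordinates -/

/-- FB1: seam frames of an admissible representation -/
def FB1_stmt : Prop := ∀ (Γ : Subgroup SL(2, ℝ)), IsClosedSurfaceGroup Γ → ∀ S : LeafSystem Γ,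
  ∀ r : SL(2, ℝ) → SL(2, ℝ), S.AdmS r →
    (∀ p u, S.Seam p u → ∃ F, IsSeamFrame (r (gen Γ p)) (r (gen Γ u)) F) ∧
    (∀ p u F F', S.Seam p u → IsSeamFrame (r (gen Γ p)) (r (gen Γ u)) F →
      IsSeamFrame (r (gen Γ p)) (r (gen Γ u)) F' → PEq F' F) ∧
    (∀ γ ∈ Γ, ∀ p u F, S.Seam p u → IsSeamFrame (r (gen Γ p)) (r (gen Γ u)) F →
      IsSeamFrame (r (gen Γ (ga γ p))) (r (gen Γ (ga γ u))) (r γ * F)) ∧
    (∀ p q s F, S.Hex p q s → IsSeamFrame (r (gen Γ p)) (r (gen Γ q)) F →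
      SeamD (r (gen Γ p)) (r (gen Γ q)) F
        (sd (len (r (gen Γ p))) (len (r (gen Γ q))) (len (r (gen Γ s)))) ∧
      SeamD (r (gen Γ q)) (r (gen Γ p))
        (F * Em (sd (len (r (gen Γ p))) (len (r (gen Γ q))) (len (r (gen Γ s)))) * Rm)
        (sd (len (r (gen Γ p))) (len (r (gen Γ q))) (len (r (gen Γ s)))) ∧
      IsSeamFrame (r (gen Γ p)) (r (gen Γ s)) (F * Dm (len (r (gen Γ p)) / 2))) ∧
    (∀ p ∈ S.L, 0 < len (r (gen Γ p)) ∧ len (r (gen Γ (sw p))) = len (r (gen Γ p)) ∧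
      ∀ γ ∈ Γ, len (r (gen Γ (ga γ p))) = len (r (gen Γ p)))

/-- FB2: two seams at the same leaf: the feet differ by a multiple of half the length -/
def FB2_stmt : Prop := ∀ (Γ : Subgroup SL(2, ℝ)), IsClosedSurfaceGroup Γ → ∀ S : LeafSystem Γ,
  S.IsPants → ∀ p u u', S.Seam p u → S.Seam p u' → ∃ k : ℤ, ∀ r : SL(2, ℝ) → SL(2, ℝ), S.AdmS r →
    ∀ F F', IsSeamFrame (r (gen Γ p)) (r (gen Γ u)) F →
      IsSeamFrame (r (gen Γ p)) (r (gen Γ u')) F' →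
      PEq F' (F * Dm (k * (len (r (gen Γ p)) / 2)))

/-- classes of leaves, a reference leaf for each class and reference seams on both sides of it -/
structure RefData {Γ : Subgroup SL(2, ℝ)} (S : LeafSystem Γ) (J : Type) where
  cls : Bd × Bd → J
  cls_ga : ∀ γ ∈ Γ, ∀ p ∈ S.L, cls (ga γ p) = cls p
  cls_sw : ∀ p ∈ S.L, cls (sw p) = cls p
  cls_inj : ∀ p ∈ S.L, ∀ q ∈ S.L, cls p = cls q → ∃ γ ∈ Γ, q = ga γ p ∨ q = ga γ (sw p)
  P : J → Bd × Bd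
  U : J → Bd × Bd
  V : J → Bd × Bd
  memP : ∀ j, P j ∈ S.L
  clsP : ∀ j, cls (P j) = j
  seamU : ∀ j, S.Seam (P j) (U j)
  seamV : ∀ j, S.Seam (sw (P j)) (V j)

/-- FB3: existence of reference data -/
def FB3_stmt : Prop := ∀ (Γ : Subgroup SL(2, ℝ)), IsClosedSurfaceGroup Γ → ∀ S : LeafSystem Γ,
  S.IsPants → S.L.Nonempty → ∃ n : ℕ, Nonempty (RefData S (Fin n))

/-- `z` are the length and twist coordinates of the representation `r` -/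
def RefData.Coord {Γ : Subgroup SL(2, ℝ)} {S : LeafSystem Γ} {J : Type} (D : RefData S J)
    (r : SL(2, ℝ) → SL(2, ℝ)) (z : PS J) : Prop :=
  (∀ j, z.1 j = len (r (gen Γ (D.P j)))) ∧
    ∀ j F G, IsSeamFrame (r (gen Γ (D.P j))) (r (gen Γ (D.U j))) F →
      IsSeamFrame (r (gen Γ (sw (D.P j)))) (r (gen Γ (D.V j))) G →
      PEq F (G * Rm * Dm (z.2 j))

/-- FB4: coordinates exist, are unique and positive; lengths of all leaves -/
def FB4_stmt : Prop := ∀ (Γ : Subgroup SL(2, ℝ)), IsClosedSurfaceGroup Γ → ∀ S : LeafSystem Γ,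
  ∀ (J : Type) (D : RefData S J) (r : SL(2, ℝ) → SL(2, ℝ)), S.AdmS r →
    (∃ z, D.Coord r z) ∧ (∀ z z', D.Coord r z → D.Coord r z' → z' = z) ∧
    (∀ z, D.Coord r z → z ∈ Cone J ∧ ∀ p ∈ S.L, z.1 (D.cls p) = len (r (gen Γ p))) ∧
    (∀ (r' : SL(2, ℝ) → SL(2, ℝ)) (g : SL(2, ℝ)) (z : PS J),
      (∀ γ ∈ Γ, PEq (r' γ) (g * r γ * g⁻¹)) → D.Coord r z → S.AdmS r' ∧ D.Coord r' z)

/-- FB5: twist parameters of all pairs of seams on the two sides of a leaf -/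
def FB5_stmt : Prop := ∀ (Γ : Subgroup SL(2, ℝ)), IsClosedSurfaceGroup Γ → ∀ S : LeafSystem Γ,
  S.IsPants → ∀ (J : Type) (D : RefData S J) (p u v : Bd × Bd), p ∈ S.L → S.Seam p u →
    S.Seam (sw p) v → ∃ k : ℤ, ∀ (r : SL(2, ℝ) → SL(2, ℝ)) (z : PS J), S.AdmS r → D.Coord r z →
      ∀ F G, IsSeamFrame (r (gen Γ p)) (r (gen Γ u)) F →
        IsSeamFrame (r (gen Γ (sw p))) (r (gen Γ v)) G →
        PEq F (G * Rm * Dm (z.2 (D.cls p) + (k / 2 : ℝ) * z.1 (D.cls p)))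

/-! ### FC: words and the trace formula -/

/-- the product `R m * D (t (m+1)) * ... * R (m+n-1) * D (t (m+n))` -/
def cp (R : ℤ → SL(2, ℝ)) (t : ℤ → ℝ) (m : ℤ) : ℕ → SL(2, ℝ)
  | 0 => 1
  | n + 1 => cp R t m n * (R (m + n) * Dm (t (m + n + 1)))

/-- the arc from the leaf `p` to the leaf `p'` (both oriented with the start of the arc behind
them) with the flags `u` at `p` and `v` at `sw p'` has the type `a` -/
def RefData.IsArc {Γ : Subgroup SL(2, ℝ)} {S : LeafSystem Γ} {J : Type} (D : RefData S J)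
    (p p' u v : Bd × Bd) (a : Arc J) : Prop :=
  (∃ x, (S.Hex p (sw p') x ∨ S.Hex (sw p') p x) ∧ u = sw p' ∧ v = p ∧
    a = Arc.seam (D.cls p) (D.cls p') (D.cls x)) ∨
  (∃ x y, S.Hex p x y ∧ sw p' = ga (gen Γ y) p ∧ u = y ∧ v = y ∧
    a = Arc.wave (D.cls p) (D.cls y) (D.cls x))

/-- the word `w` describes the closed geodesic `l`: the leaves `A i` of `S` crossed by `l`, the
flags `U i` in front of `A i` and `V i` in front of `sw (A i)` -/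
structure WordOf {Γ : Subgroup SL(2, ℝ)} {S : LeafSystem Γ} {J : Type} (D : RefData S J)
    (l : Bd × Bd) (w : Word J) where
  A : ℤ → Bd × Bd
  U : ℤ → Bd × Bd
  V : ℤ → Bd × Bd
  mem : ∀ i, A i ∈ S.L ∧ Behind (A i) l.2 ∧ Behind (sw (A i)) l.1
  copl : ∀ i, S.CoPl (A i) (sw (A (i + 1)))
  mono : ∀ i j, i < j → Inside (A i) (A j)
  perA : ∀ i, A (i + w.n + 1) = ga (gen Γ l) (A i)
  perU : ∀ i, U (i + w.n + 1) = ga (gen Γ l) (U i)
  perV : ∀ i, V (i + w.n + 1) = ga (gen Γ l) (V i)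
  all : ∀ p ∈ S.L, Behind p l.2 → Behind (sw p) l.1 → ∃ i, p = A i
  seamU : ∀ i, S.Seam (A i) (U i)
  seamV : ∀ i, S.Seam (sw (A i)) (V i)
  cj : ∀ i : Fin (w.n + 1), w.j i = D.cls (A (i.val : ℤ))
  arc : ∀ i : Fin (w.n + 1), D.IsArc (A (i.val : ℤ)) (A ((i.val : ℤ) + 1)) (U (i.val : ℤ))
    (V ((i.val : ℤ) + 1)) (w.A i)
  shift : ∀ i : Fin (w.n + 1), ∀ (r : SL(2, ℝ) → SL(2, ℝ)) (z : PS J), S.AdmS r → D.Coord r z →
    ∀ F G, IsSeamFrame (r (gen Γ (A (i.val : ℤ)))) (r (gen Γ (U (i.val : ℤ)))) F →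
      IsSeamFrame (r (gen Γ (sw (A (i.val : ℤ))))) (r (gen Γ (V (i.val : ℤ)))) G →
      PEq F (G * Rm * Dm (w.t i z))
  half : ∀ i : Fin (w.n + 1), ∃ k : ℤ, w.c i = k / 2

/-- FC1: consecutive crossings are joined by a seam or a wave -/
def FC1_stmt : Prop := ∀ (Γ : Subgroup SL(2, ℝ)), IsClosedSurfaceGroup Γ → ∀ S : LeafSystem Γ,
  S.IsPants → ∀ (J : Type) (D : RefData S J) (l p p' : Bd × Bd),
    IsSimpleClosedGeodesic Γ l.1 l.2 → S.CoPl p (sw p') → Behind p l.2 → Behind (sw p') l.1 →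
    ∃ u v a, D.IsArc p p' u v a ∧ S.Seam p u ∧ S.Seam (sw p') v ∧ a.src = D.cls p ∧
      a.tgt = D.cls p'

/-- FC2: existence of words -/
def FC2_stmt : Prop := ∀ (Γ : Subgroup SL(2, ℝ)), IsClosedSurfaceGroup Γ → ∀ S : LeafSystem Γ,
  S.IsPants → ∀ (J : Type) (D : RefData S J) (l : Bd × Bd), IsSimpleClosedGeodesic Γ l.1 l.2 →
    (∃ p ∈ S.L, Linked l.1 l.2 p.1 p.2) → ∃ w : Word J, Nonempty (WordOf D l w)

/-- FC3: the arc matrices -/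
def FC3_stmt : Prop := ∀ (Γ : Subgroup SL(2, ℝ)), IsClosedSurfaceGroup Γ → ∀ S : LeafSystem Γ,
  ∀ (J : Type) (D : RefData S J) (r : SL(2, ℝ) → SL(2, ℝ)) (z : PS J), S.AdmS r → D.Coord r z →
    ∀ (p p' u v : Bd × Bd) (a : Arc J) (F G : SL(2, ℝ)), p ∈ S.L → p' ∈ S.L →
      D.IsArc p p' u v a → IsSeamFrame (r (gen Γ p)) (r (gen Γ u)) F →
      IsSeamFrame (r (gen Γ (sw p'))) (r (gen Γ v)) G → PEq (G * Rm) (F * arcM a z.1)

/-- FC4: the frames along a closed geodesic -/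
def FC4_stmt : Prop := ∀ (Γ : Subgroup SL(2, ℝ)), IsClosedSurfaceGroup Γ → ∀ S : LeafSystem Γ,
  ∀ (J : Type) (D : RefData S J) (l : Bd × Bd) (w : Word J) (W : WordOf D l w)
    (r : SL(2, ℝ) → SL(2, ℝ)) (z : PS J), IsClosedGeodesic Γ l.1 l.2 → S.AdmS r → D.Coord r z →
    ∃ (F G M : ℤ → SL(2, ℝ)) (t : ℤ → ℝ),
      (∀ i, IsSeamFrame (r (gen Γ (W.A i))) (r (gen Γ (W.U i))) (F i)) ∧
      (∀ i, IsSeamFrame (r (gen Γ (sw (W.A i)))) (r (gen Γ (W.V i))) (G i)) ∧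
      (∀ i, PEq (F i) (G i * Rm * Dm (t i))) ∧
      (∀ i, PEq (G (i + 1) * Rm) (F i * M i)) ∧
      (∀ i, PEq (F (i + w.n + 1)) (r (gen Γ l) * F i)) ∧
      (∀ i, M (i + w.n + 1) = M i) ∧ (∀ i, t (i + w.n + 1) = t i) ∧
      (∀ i : Fin (w.n + 1), t (i.val : ℤ) = w.t i z ∧ M (i.val : ℤ) = arcM (w.A i) z.1) ∧
      (∀ i s s', 0 < (M i).1 s s') ∧
      (∀ i, PEq ((F i)⁻¹ * r (gen Γ l) * F i) (cp M t i (w.n + 1)))

/-- FC5: the trace of a cyclic product is the sum over sign sequences -/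
def FC5_stmt : Prop := ∀ (J : Type) (w : Word J) (z : PS J) (M : ℤ → SL(2, ℝ)) (t : ℤ → ℝ),
  (∀ i, M (i + w.n + 1) = M i) → (∀ i, t (i + w.n + 1) = t i) →
  (∀ i : Fin (w.n + 1), t (i.val : ℤ) = w.t i z ∧
    ∀ s s', (M (i.val : ℤ)).1 (bi s) (bi s') = Real.exp ((w.A i).g s s' z.1)) →
  (∀ i, trc (cp M t i (w.n + 1)) = w.F z) ∧
  (∀ i : Fin (w.n + 1), (hM * (cp M t (i.val : ℤ) (w.n + 1)).1).trace =
    ∑ σ : Fin (w.n + 1) → Bool, bs (σ i) * w.W σ z)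

/-- FC6: products of positive matrices -/
def FC6_stmt : Prop :=
  (∀ g h : SL(2, ℝ), PosMat g → PosMat h → PosMat (g * h)) ∧
  (∀ g : SL(2, ℝ), PosMat g → 2 < trc g) ∧
  (∀ (g : SL(2, ℝ)) (t : ℝ), PosMat g → PosMat (g * Dm t) ∧ PosMat (Dm t * g)) ∧
  (∀ (R : ℤ → SL(2, ℝ)) (t : ℤ → ℝ) (m : ℤ) (n : ℕ), (∀ i, PosMat (R i)) →
    PosMat (cp R t m (n + 1)))

/-- FC7: length and crossing angles of a closed geodesic -/
def FC7_stmt : Prop := ∀ (Γ : Subgroup SL(2, ℝ)), IsClosedSurfaceGroup Γ → ∀ S : LeafSystem Γ,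
  ∀ (J : Type) (D : RefData S J) (l : Bd × Bd) (w : Word J) (W : WordOf D l w)
    (r : SL(2, ℝ) → SL(2, ℝ)) (z : PS J), IsClosedGeodesic Γ l.1 l.2 → S.AdmS r → D.Coord r z →
    2 < |trc (r (gen Γ l))| ∧ |trc (r (gen Γ l))| = w.F z ∧ w.H z = len (r (gen Γ l)) ∧
    ∀ i : Fin (w.n + 1),
      w.ct i z = -ip (axis (r (gen Γ l))) (axis (r (gen Γ (W.A (i.val : ℤ)))))

/-! ### FD: chains of the twist deformation -/

/-- FD1: a closed geodesic `q` crossing the leaves `B i` of `S'` under the twist deformation -/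
def FD1_stmt : Prop := ∀ (Γ : Subgroup SL(2, ℝ)), IsClosedSurfaceGroup Γ →
  ∀ (S' : LeafSystem Γ) (f : Bd ≃ Bd) (r : SL(2, ℝ) → SL(2, ℝ)) (z₀ : ℍ), IsConjBy Γ f r →
    S'.OffPt z₀ → ∀ q : Bd × Bd, IsClosedGeodesic Γ q.1 q.2 →
    (∃ b ∈ S'.L, Linked q.1 q.2 b.1 b.2) →
    ∃ (n : ℕ) (B : ℤ → Bd × Bd) (H : ℤ → SL(2, ℝ)),
      (∀ i, B i ∈ S'.L ∧ Behind (B i) q.2 ∧ Behind (sw (B i)) q.1) ∧
      (∀ b ∈ S'.L, Behind b q.2 → Behind (sw b) q.1 → ∃ i, b = B i) ∧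
      (∀ i, B (i + n + 1) = ga (gen Γ q) (B i)) ∧
      (∀ i, IsFrame (H i) (f (B i).1, f (B i).2)) ∧
      (∀ i, PosMat ((H i)⁻¹ * H (i + 1))) ∧
      (∀ i, PEq (H (i + n + 1)) (r (gen Γ q) * H i)) ∧
      (∀ (T : Bd × Bd → ℝ) (A : ℍ → SL(2, ℝ)), (∀ γ ∈ Γ, ∀ p ∈ S'.L, T (ga γ p) = T p) →
        (∀ p ∈ S'.L, T (sw p) = T p) → S'.IsTwist r T z₀ A → ∀ i z, S'.Near (B i) z →
        PEq (A (gen Γ q • z₀) * r (gen Γ q))
          ((A z * H i) * cp (fun k => (H k)⁻¹ * H (k + 1)) (fun k => T (B k)) i (n + 1) *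
            (A z * H i)⁻¹) ∧
        PEq (A (gen Γ (B i) • z₀) * r (gen Γ (B i)))
          ((A z * H i) * Dm (len (r (gen Γ (B i)))) * (A z * H i)⁻¹))

/-- FD2: the twist deformation stays admissible for a transverse pants decomposition -/
def FD2_stmt : Prop := ∀ (Γ : Subgroup SL(2, ℝ)), IsClosedSurfaceGroup Γ →
  ∀ (S S' : LeafSystem Γ) (f : Bd ≃ Bd) (r : SL(2, ℝ) → SL(2, ℝ)) (z₀ : ℍ), IsConjBy Γ f r →
    S'.OffPt z₀ → (∀ p ∈ S.L, ∃ q ∈ S'.L, Linked p.1 p.2 q.1 q.2) →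
    ∀ (K : Type) [Fintype K] [DecidableEq K] (cls : Bd × Bd → K)
      (A : (K → ℝ) → ℍ → SL(2, ℝ)), (∀ γ ∈ Γ, ∀ p ∈ S'.L, cls (ga γ p) = cls p) →
      (∀ p ∈ S'.L, cls (sw p) = cls p) → (∀ T, S'.IsTwist r (fun p => T (cls p)) z₀ (A T)) →
      ∀ T, S.AdmS (fun γ => A T (γ • z₀) * r γ)

/-- FD3: analysis of one crossing: `N` runs over positive matrices with comparable entries -/
def FD3_stmt : Prop :=
  (∀ R R' : SL(2, ℝ), PosMat R → PosMat R' → ∃ C : ℝ, 0 < C ∧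
    (∀ i j k l, R.1 i j ≤ C * R.1 k l) ∧
    ∀ X : SL(2, ℝ), (∀ i j, 0 ≤ X.1 i j) → ∀ i j k l,
      (R * X * R').1 i j ≤ C * (R * X * R').1 k l) ∧
  (∀ C : ℝ, 0 < C → ∃ C₁ c₁ : ℝ, 0 < c₁ ∧ ∀ (N F g h : SL(2, ℝ)) (T t : ℝ), PosMat N →
    (∀ i j k l, N.1 i j ≤ C * N.1 k l) → 0 < t → PEq g (F * Dm t * F⁻¹) →
    PEq h (F * (N * Dm T) * F⁻¹) →
      1 - ip (axis g) (axis h) ≤ C₁ * Real.exp (-T) ∧
      1 + ip (axis g) (axis h) ≤ C₁ * Real.exp T ∧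
      c₁ * Real.exp (-|T|) ≤ 1 - |ip (axis g) (axis h)|)

/-- FD4: crossing angles under the twist deformation -/
def FD4_stmt : Prop := ∀ (Γ : Subgroup SL(2, ℝ)), IsClosedSurfaceGroup Γ →
  ∀ (S' : LeafSystem Γ) (f : Bd ≃ Bd) (r : SL(2, ℝ) → SL(2, ℝ)) (z₀ : ℍ), IsConjBy Γ f r →
    S'.OffPt z₀ → ∀ (K : Type) (cls : Bd × Bd → K) (A : (K → ℝ) → ℍ → SL(2, ℝ)),
      (∀ γ ∈ Γ, ∀ p ∈ S'.L, cls (ga γ p) = cls p) →
      (∀ p ∈ S'.L, cls (sw p) = cls p) → (∀ T, S'.IsTwist r (fun p => T (cls p)) z₀ (A T)) →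
      ∀ l ∈ S'.L, ∀ q : Bd × Bd, IsClosedGeodesic Γ q.1 q.2 → Behind q l.2 →
        Behind (sw q) l.1 → ∃ C c : ℝ, 0 < c ∧ ∀ T : K → ℝ,
          1 + ip (axis (A T (gen Γ l • z₀) * r (gen Γ l)))
            (axis (A T (gen Γ q • z₀) * r (gen Γ q))) ≤ C * Real.exp (-(T (cls l))) ∧
          1 - ip (axis (A T (gen Γ l • z₀) * r (gen Γ l)))
            (axis (A T (gen Γ q • z₀) * r (gen Γ q))) ≤ C * Real.exp (T (cls l)) ∧
          c * Real.exp (-|T (cls l)|) ≤ 1 - |ip (axis (A T (gen Γ l • z₀) * r (gen Γ l)))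
            (axis (A T (gen Γ q • z₀) * r (gen Γ q)))|

/-! ### FE: families and the final assembly -/

/-- the common situation: two transverse pants decompositions, `S` for the coordinates and `S'`
for the twists, and the words of the reference leaves of `S'` in `S` -/
structure Setup (Γ : Subgroup SL(2, ℝ)) (J K : Type) where
  S : LeafSystem Γ
  S' : LeafSystem Γ
  pants : S.IsPants
  pants' : S'.IsPants
  D : RefData S J
  D' : RefData S' K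
  cross : ∀ p ∈ S.L, ∃ q ∈ S'.L, Linked p.1 p.2 q.1 q.2
  cross' : ∀ q ∈ S'.L, ∃ p ∈ S.L, Linked q.1 q.2 p.1 p.2
  w : K → Word J
  W : ∀ k, WordOf D (D'.P k) (w k)

/-- the twist deformation along `S'` -/
structure Setup.Def {Γ : Subgroup SL(2, ℝ)} {J K : Type} (X : Setup Γ J K)
    (f : Bd ≃ Bd) (r : SL(2, ℝ) → SL(2, ℝ)) (z₀ : ℍ) (A : (K → ℝ) → ℍ → SL(2, ℝ)) : Prop where
  conj : IsConjBy Γ f r
  off : X.S'.OffPt z₀
  twist : ∀ T, X.S'.IsTwist r (fun p => T (X.D'.cls p)) z₀ (A T)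

/-- WD: the derivative of the coordinates along the twist deformation is the Hamiltonian field
of the length function (helper73) -/
def WD_stmt : Prop := ∀ (Γ : Subgroup SL(2, ℝ)), IsClosedSurfaceGroup Γ →
  ∀ (J K : Type) [Fintype J] [DecidableEq J] [Fintype K] [DecidableEq K] (X : Setup Γ J K)
    (f : Bd ≃ Bd) (r : SL(2, ℝ) → SL(2, ℝ)) (z₀ : ℍ) (A : (K → ℝ) → ℍ → SL(2, ℝ)),
    X.Def f r z₀ A → ∀ Z : (K → ℝ) → PS J,
      (∀ T, X.S.AdmS (fun γ => A T (γ • z₀) * r γ)) →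
      (∀ T, X.D.Coord (fun γ => A T (γ • z₀) * r γ) (Z T)) →
      ∀ T, HasFDerivAt Z (∑ k, (ContinuousLinearMap.proj k : (K → ℝ) →L[ℝ] ℝ).smulRight
        (sg (fderiv ℝ (X.w k).H (Z T)))) T

/-- FE1: the family of a twist deformation -/
def FE1_stmt : Prop := ∀ (Γ : Subgroup SL(2, ℝ)), IsClosedSurfaceGroup Γ →
  ∀ (J K : Type) [Fintype J] [DecidableEq J] [Fintype K] [DecidableEq K] (X : Setup Γ J K)
    (f : Bd ≃ Bd) (r : SL(2, ℝ) → SL(2, ℝ)) (z₀ : ℍ) (A : (K → ℝ) → ℍ → SL(2, ℝ)),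
    X.Def f r z₀ A → ∃ Φ : PreFamily X.w,
      ∀ T, X.D.Coord (fun γ => A T (γ • z₀) * r γ) (Φ.Z T)

/-- FE2: transverse pants decompositions and their words exist, with the exchanged words -/
def FE2_stmt : Prop := ∀ (Γ : Subgroup SL(2, ℝ)), IsClosedSurfaceGroup Γ →
  ∀ lm lp : WeightedMulticurve Γ, Fill lm lp → ∃ (m n : ℕ) (X : Setup Γ (Fin m) (Fin n))
    (_Y : Setup Γ (Fin n) (Fin m)), X.S.L.Nonempty ∧ X.S'.L.Nonempty ∧
      (∀ x y, lm.w x y ≠ 0 → (x, y) ∈ X.S.L) ∧ (∀ x y, lp.w x y ≠ 0 → (x, y) ∈ X.S'.L) ∧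
      (∀ j, ∃ k, 0 < lp.w (X.D'.P k).1 (X.D'.P k).2 ∧ ∃ i, (X.w k).j i = j)

/-- FE3: the two pants decompositions have the same number of curves -/
def FE3_stmt : Prop := ∀ (Γ : Subgroup SL(2, ℝ)), IsClosedSurfaceGroup Γ →
  ∀ (m n : ℕ), Nonempty (Setup Γ (Fin m) (Fin n)) → Nonempty (Setup Γ (Fin n) (Fin m)) → n = m

/-- FE4: coordinates of the left and the right representation: future bending -/
def FE4_stmt : Prop := ∀ (Γ : Subgroup SL(2, ℝ)), IsClosedSurfaceGroup Γ →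
  ∀ (J K : Type) [Fintype J] [DecidableEq J] [Fintype K] [DecidableEq K] (X : Setup Γ J K),
    X.S'.L.Nonempty → ∀ (M : GHMC Γ) (lp : WeightedMulticurve Γ),
    (∀ x y, lp.w x y ≠ 0 → (x, y) ∈ X.S'.L) → M.FutureBending lp →
    ∀ (r r' : SL(2, ℝ) → SL(2, ℝ)) (z₀ : ℍ) (A : (K → ℝ) → ℍ → SL(2, ℝ)),
      IsConjBy Γ M.right.bd r → IsConjBy Γ M.left.bd r' → X.Def M.right.bd r z₀ A →
      ∃ g : SL(2, ℝ), ∀ γ ∈ Γ, PEq (r' γ)
        (g * (A (fun k => 2 * lp.w (X.D'.P k).1 (X.D'.P k).2) (γ • z₀) * r γ) * g⁻¹)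

/-- FE5: coordinates of the left and the right representation: past bending -/
def FE5_stmt : Prop := ∀ (Γ : Subgroup SL(2, ℝ)), IsClosedSurfaceGroup Γ →
  ∀ (J : Type) (S : LeafSystem Γ) (D : RefData S J), S.IsPants → S.L.Nonempty →
    ∀ (M : GHMC Γ) (lm : WeightedMulticurve Γ), (∀ x y, lm.w x y ≠ 0 → (x, y) ∈ S.L) →
    M.PastBending lm → ∀ r r' : SL(2, ℝ) → SL(2, ℝ), IsConjBy Γ M.left.bd r →
      IsConjBy Γ M.right.bd r' → ∀ z, D.Coord r z →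
        D.Coord r' (z + ((0 : J → ℝ), fun j => 2 * lm.w (D.P j).1 (D.P j).2))

/-- FE6: equal coordinates give conjugate representations -/
def FE6_stmt : Prop := ∀ (Γ : Subgroup SL(2, ℝ)), IsClosedSurfaceGroup Γ →
  ∀ (J : Type) (S : LeafSystem Γ) (D : RefData S J), S.IsPants → S.L.Nonempty →
    ∀ (r r' : SL(2, ℝ) → SL(2, ℝ)) (z : PS J), S.AdmS r → S.AdmS r' → D.Coord r z →
      D.Coord r' z → ∃ g : SL(2, ℝ), ∀ γ ∈ Γ, PEq (r' γ) (g * r γ * g⁻¹)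

/-- QC2: the corrected form of QC1 (third clause only for leaves) -/
def QC2_stmt : Prop := ∀ (Γ : Subgroup SL(2, ℝ)), IsClosedSurfaceGroup Γ → ∀ S : LeafSystem Γ,
  S.IsPants → S.L.Nonempty →
  ∀ (ω : Bd × Bd → ℝ) (f f' : Bd ≃ Bd) (r r' : SL(2, ℝ) → SL(2, ℝ)) (B : ℍ → SL(2, ℝ)),
    IsConjBy Γ f r → IsConjBy Γ f' r' → S.IsQuake ω f f' r B →
    (∀ p ∈ S.L, len (r' (gen Γ p)) = len (r (gen Γ p))) ∧
    (∀ p u F z, S.CoPl p u → S.Near p z → IsSeamFrame (r (gen Γ p)) (r (gen Γ u)) F →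
      IsSeamFrame (r' (gen Γ p)) (r' (gen Γ u)) (B z * F)) ∧
    (∀ p ∈ S.L, ∀ z z' F G t, S.Near p z → S.Near (sw p) z' → IsFrame F (f p.1, f p.2) →
      PEq F (G * Rm * Dm t) → PEq (B z * F) ((B z' * G) * Rm * Dm (t + ω p)))

/-- TF2: representations of Teichmueller space are admissible (with orientation) -/
def TF2_stmt : Prop := ∀ (Γ : Subgroup SL(2, ℝ)), IsClosedSurfaceGroup Γ → ∀ S : LeafSystem Γ,
  ∀ (f : Bd ≃ Bd) (r : SL(2, ℝ) → SL(2, ℝ)), IsConjBy Γ f r → S.AdmS r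

/-- IJ2: the corrected form of IJ1 -/
def IJ2_stmt : Prop := ∀ (Γ : Subgroup SL(2, ℝ)), IsClosedSurfaceGroup Γ → ∀ S : LeafSystem Γ,
  S.IsPants → S.L.Nonempty → ∀ r r' : SL(2, ℝ) → SL(2, ℝ), S.AdmS r → S.AdmS r' →
    (∀ p ∈ S.L, len (r (gen Γ p)) = len (r' (gen Γ p))) →
    (∀ p u v F G F' G' t, S.Seam p u → S.Seam (sw p) v →
      IsSeamFrame (r (gen Γ p)) (r (gen Γ u)) F →
      IsSeamFrame (r (gen Γ (sw p))) (r (gen Γ v)) G →
      IsSeamFrame (r' (gen Γ p)) (r' (gen Γ u)) F' →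
      IsSeamFrame (r' (gen Γ (sw p))) (r' (gen Γ v)) G' →
      PEq F (G * Rm * Dm t) → PEq F' (G' * Rm * Dm t)) →
    ∃ g : SL(2, ℝ), ∀ γ ∈ Γ, PEq (r' γ) (g * r γ * g⁻¹)

/-- FE7: the final statement -/
def FE7_stmt : Prop := FinalStatement

end

end AdSBend
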