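import Pool.Agent.helper69.AD.GS5
import Pool.Agent.helper73.AD.Stmt

/-!
Statements of the modules of the existence part (wave 6): XA (Clarke duality), XB (the length
functions), XC (filling multicurves), XR (realisation of all coordinates), XE (boundary maps of
earthquakes), XF (bridge), XG (assembly).
-/

open scoped MatrixGroups LinearAlgebra.Projectivization
open Matrix UpperHalfPlane
open Pool.Agent.helper73.AD (PS Arc Word sg AData Family PreFamily Cone bs)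

namespace AdSBend

noncomputable section

open LeafSystem

/-! ### XA: closed trajectories of convex Hamiltonians -/

/-- the linear function `∑ a j * q j` -/
def qlin {J : Type} [Fintype J] (a : J → ℝ) : PS J →L[ℝ] ℝ :=
  ∑ j, a j • ((ContinuousLinearMap.proj j : (J → ℝ) →L[ℝ] ℝ).comp
    (ContinuousLinearMap.fst ℝ (J → ℝ) (J → ℝ)))

/-- convex Hamiltonian with bounded slopes, proper after addition of `qlin a` -/
structure CHam {J : Type} [Fintype J] [DecidableEq J] (H : PS J → ℝ) (a : J → ℝ) : Prop where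
  smooth : ContDiffOn ℝ 2 H (Cone J)
  convex : ConvexOn ℝ (Cone J) H
  slope : ∃ C : ℝ, ∀ z ∈ Cone J, ∀ j, |fderiv ℝ H z (0, Pi.single j 1)| ≤ C ∧
    fderiv ℝ H z (Pi.single j 1, 0) ≤ C
  proper : ∀ R : ℝ, ∃ δ B : ℝ, 0 < δ ∧ ∀ z ∈ Cone J, H z + qlin a z ≤ R →
    ∀ j, δ ≤ z.1 j ∧ z.1 j ≤ B ∧ |z.2 j| ≤ B

/-- discrete closed trajectory with `m` steps -/
structure DSol {J : Type} [Fintype J] [DecidableEq J] (H : PS J → ℝ) (a : J → ℝ) (m : ℕ)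
    (w : Fin m → PS J) (ξ : Fin m → (PS J →L[ℝ] ℝ)) (c : PS J) : Prop where
  mem : ∀ i, w i ∈ Cone J
  slope : ∀ i, ξ i = fderiv ℝ H (w i - ((i.val : ℝ) / m) • ((0 : J → ℝ), a)) + qlin a
  sum : ∑ i, ξ i = 0
  step : ∀ i, w i = (1 / (m : ℝ)) •
    sg (∑ l ∈ Finset.univ.filter (fun l => l < i), ξ l + (1 / 2 : ℝ) • ξ i) + c

/-- XA1: existence of discrete closed trajectories -/
def XA1_stmt : Prop := ∀ (J : Type) [Fintype J] [DecidableEq J] (H : PS J → ℝ) (a : J → ℝ),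
  CHam H a → ∀ m : ℕ, 0 < m → ∃ w ξ c, DSol H a m w ξ c

/-- XA2: uniform bounds for discrete closed trajectories -/
def XA2_stmt : Prop := ∀ (J : Type) [Fintype J] [DecidableEq J] (H : PS J → ℝ) (a : J → ℝ),
  CHam H a → ∃ (δ B : ℝ) (m₀ : ℕ), 0 < δ ∧ 0 < m₀ ∧ ∀ m, m₀ ≤ m → ∀ w ξ c, DSol H a m w ξ c →
    ∀ i j, δ ≤ (w i).1 j ∧ (w i).1 j ≤ B ∧ |(w i).2 j| ≤ B

/-- XA3: the closed trajectory -/
def XA3_stmt : Prop := ∀ (J : Type) [Fintype J] [DecidableEq J] (H : PS J → ℝ) (a : J → ℝ),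
  CHam H a → ∃ z : ℝ → PS J, (∀ t ∈ Set.Icc (0 : ℝ) 1, z t ∈ Cone J ∧
    HasDerivWithinAt z (sg (fderiv ℝ H (z t))) (Set.Icc 0 1) t) ∧ z 1 = z 0 - ((0 : J → ℝ), a)

/-! ### XB: the length functions -/

/-- XB1: bounded slopes of the length functions -/
def XB1_stmt : Prop := ∀ (J : Type) [Fintype J] [DecidableEq J] (w : Word J),
  ∃ C : ℝ, 0 ≤ C ∧ ∀ z ∈ Cone J, ∀ j, |fderiv ℝ w.H z (0, Pi.single j 1)| ≤ C ∧
    fderiv ℝ w.H z (Pi.single j 1, 0) ≤ C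

/-- XB2: bounded length and bounded `q` bound the coordinates of the crossed curves -/
def XB2_stmt : Prop := ∀ (J : Type) [Fintype J] [DecidableEq J] (w : Word J) (R B : ℝ),
  ∃ δ B' : ℝ, 0 < δ ∧ ∀ z ∈ Cone J, w.H z ≤ R → (∀ j, z.1 j ≤ B) →
    ∀ i, δ ≤ z.1 (w.j i) ∧ |z.2 (w.j i)| ≤ B'

/-- XB3: weighted sums of length functions -/
def XB3_stmt : Prop := ∀ (J K : Type) [Fintype J] [DecidableEq J] [Fintype K] [DecidableEq K]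
  (w : K → Word J) (b : K → ℝ), (∀ k, 0 ≤ b k) →
    ContDiffOn ℝ 2 (fun z => ∑ k, b k * (w k).H z) (Cone J) ∧
    ConvexOn ℝ (Cone J) (fun z => ∑ k, b k * (w k).H z) ∧
    (∀ z ∈ Cone J, (∀ k, 0 < (w k).H z) ∧
      fderiv ℝ (fun z => ∑ k, b k * (w k).H z) z = ∑ k, b k • fderiv ℝ (w k).H z)

/-! ### XC: filling multicurves -/

/-- leaves of one of the two multicurves -/
def IsLf {Γ : Subgroup SL(2, ℝ)} (lm lp : WeightedMulticurve Γ) (p : Bd × Bd) : Prop :=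
  lm.w p.1 p.2 ≠ 0 ∨ lp.w p.1 p.2 ≠ 0

/-- XC1: the regions of a filling pair have trivial stabilisers -/
def XC1_stmt : Prop := ∀ Γ : Subgroup SL(2, ℝ), IsClosedSurfaceGroup Γ →
  ∀ lm lp : WeightedMulticurve Γ, Fill lm lp → ∀ z : ℍ, lm.Off z → lp.Off z → ∀ γ ∈ Γ,
    (∀ p, IsLf lm lp p → ¬ SepPts p.1 p.2 z (γ • z)) → PEq γ 1

/-- XC2: the leaves of a filling pair are connected by chains of crossing leaves -/
def XC2_stmt : Prop := ∀ Γ : Subgroup SL(2, ℝ), IsClosedSurfaceGroup Γ →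
  ∀ lm lp : WeightedMulticurve Γ, Fill lm lp → ∀ p p', IsLf lm lp p → IsLf lm lp p' →
    Relation.ReflTransGen
      (fun q q' => IsLf lm lp q ∧ IsLf lm lp q' ∧ Linked q.1 q.2 q'.1 q'.2) p p'

/-- XC3: the distance of two crossing points on a closed geodesic -/
def XC3_stmt : Prop := ∀ Γ : Subgroup SL(2, ℝ), IsClosedSurfaceGroup Γ → ∀ p c c' : Bd × Bd,
  IsClosedGeodesic Γ p.1 p.2 → Linked p.1 p.2 c.1 c.2 → Linked p.1 p.2 c'.1 c'.2 →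
    ∃ N : ℕ, ∀ (f : Bd ≃ Bd) (r : SL(2, ℝ) → SL(2, ℝ)), IsConjBy Γ f r → ∀ x x' : ℍ,
      side x (f p.1) (f p.2) = 0 → side x (f c.1) (f c.2) = 0 →
      side x' (f p.1) (f p.2) = 0 → side x' (f c'.1) (f c'.2) = 0 →
      dist x x' ≤ N * len (r (gen Γ p))

/-- XC4: the lengths of a filling pair bound all lengths -/
def XC4_stmt : Prop := ∀ Γ : Subgroup SL(2, ℝ), IsClosedSurfaceGroup Γ →
  ∀ lm lp : WeightedMulticurve Γ, Fill lm lp → ∀ γ ∈ Γ, ∀ M : ℝ, ∃ C : ℝ,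
    ∀ (f : Bd ≃ Bd) (r : SL(2, ℝ) → SL(2, ℝ)), IsConjBy Γ f r →
      (∀ p, IsLf lm lp p → len (r (gen Γ p)) ≤ M) → |trc (r γ)| ≤ C

/-- XC5: properness in coordinates (bound of the lengths) -/
def XC5_stmt : Prop := ∀ Γ : Subgroup SL(2, ℝ), IsClosedSurfaceGroup Γ →
  ∀ lm lp : WeightedMulticurve Γ, Fill lm lp →
  ∀ (J K : Type) [Fintype J] [DecidableEq J] [Fintype K] [DecidableEq K] (X : Setup Γ J K),
    (∀ x y, lm.w x y ≠ 0 → (x, y) ∈ X.S.L) → (∀ x y, lp.w x y ≠ 0 → (x, y) ∈ X.S'.L) →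
    ∀ R : ℝ, ∃ B : ℝ, ∀ (f : Bd ≃ Bd) (r : SL(2, ℝ) → SL(2, ℝ)) (z : PS J), IsConjBy Γ f r →
      X.D.Coord r z →
      (∑ k, 2 * lp.w (X.D'.P k).1 (X.D'.P k).2 * (X.w k).H z) +
        qlin (fun j => 2 * lm.w (X.D.P j).1 (X.D.P j).2) z ≤ R → ∀ j, z.1 j ≤ B

/-! ### XR: realisation of all coordinates -/

/-- XR1: the twist fields span the length directions -/
def XR1_stmt : Prop := ∀ (J K : Type) [Fintype J] [DecidableEq J] [Fintype K] [DecidableEq K]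
  (w : K → Word J), (∀ j, ∃ k i, (w k).j i = j) → ∀ q : J → ℝ, (∀ j, 0 < q j) → ∀ c : J → ℝ,
    (∀ (k : K) (p : J → ℝ), fderiv ℝ (w k).H (q, p) (0, c) = 0) → c = 0

/-- `Q` is invariant under the twist flows -/
def TwInv {J K : Type} [Fintype J] [DecidableEq J] (w : K → Word J) (Q : Set (J → ℝ)) : Prop :=
  (∀ q ∈ Q, ∀ j, 0 < q j) ∧ ∀ q ∈ Q, ∀ (p : J → ℝ) (k : K), ∃ ζ : ℝ → PS J, ζ 0 = (q, p) ∧
    ∀ s, ζ s ∈ Cone J ∧ (ζ s).1 ∈ Q ∧ HasDerivAt ζ (sg (fderiv ℝ (w k).H (ζ s))) s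

/-- XR2: local transitivity, uniformly near a point -/
def XR2_stmt : Prop := ∀ (J K : Type) [Fintype J] [DecidableEq J] [Fintype K] [DecidableEq K]
  (w : K → Word J), (∀ j, ∃ k i, (w k).j i = j) → ∀ Q : Set (J → ℝ), TwInv w Q →
    ∀ q₀ : J → ℝ, (∀ j, 0 < q₀ j) → ∃ ρ : ℝ, 0 < ρ ∧ ∀ q ∈ Q, ∀ q' : J → ℝ,
      ‖q - q₀‖ < ρ → ‖q' - q₀‖ < ρ → q' ∈ Q

/-- XR3: transitivity -/
def XR3_stmt : Prop := ∀ (J K : Type) [Fintype J] [DecidableEq J] [Fintype K] [DecidableEq K]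
  (w : K → Word J), (∀ j, ∃ k i, (w k).j i = j) → ∀ Q : Set (J → ℝ), TwInv w Q →
    Q.Nonempty → ∀ q : J → ℝ, (∀ j, 0 < q j) → q ∈ Q

/-- the realised coordinates -/
def Setup.Real {Γ : Subgroup SL(2, ℝ)} {J K : Type} (X : Setup Γ J K) : Set (PS J) :=
  {z | ∃ (f : Bd ≃ Bd) (r : SL(2, ℝ) → SL(2, ℝ)), IsConjBy Γ f r ∧ X.D.Coord r z}

/-- XR4: the realised coordinates are invariant under twists along `S` -/
def XR4_stmt : Prop := ∀ Γ : Subgroup SL(2, ℝ), IsClosedSurfaceGroup Γ →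
  ∀ (J : Type) [Fintype J] [DecidableEq J] (S : LeafSystem Γ) (D : RefData S J),
    S.IsPants → S.L.Nonempty →
    ∀ (f f' : Bd ≃ Bd) (r r' : SL(2, ℝ) → SL(2, ℝ)) (B : ℍ → SL(2, ℝ)) (T : J → ℝ) (z : PS J),
      IsConjBy Γ f r → IsConjBy Γ f' r' → S.IsQuake (fun p => T (D.cls p)) f f' r B →
      D.Coord r z → D.Coord r' (z + ((0 : J → ℝ), T))

/-- XR5: the realised coordinates are invariant under twists along `S'` -/
def XR5_stmt : Prop := ∀ Γ : Subgroup SL(2, ℝ), IsClosedSurfaceGroup Γ →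
  ∀ (J K : Type) [Fintype J] [DecidableEq J] [Fintype K] [DecidableEq K] (X : Setup Γ J K),
    X.S.L.Nonempty → X.S'.L.Nonempty →
    (∀ z ∈ X.Real, ∀ t : J → ℝ, z + ((0 : J → ℝ), t) ∈ X.Real) ∧
    (∀ z ∈ X.Real, ∀ k, ∃ ζ : ℝ → PS J, ζ 0 = z ∧
      ∀ s, ζ s ∈ X.Real ∧ HasDerivAt ζ (sg (fderiv ℝ (X.w k).H (ζ s))) s)

/-- XR6: all coordinates are realised -/
def XR6_stmt : Prop := ∀ Γ : Subgroup SL(2, ℝ), IsClosedSurfaceGroup Γ →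
  ∀ (J K : Type) [Fintype J] [DecidableEq J] [Fintype K] [DecidableEq K] (X : Setup Γ J K),
    X.S.L.Nonempty → X.S'.L.Nonempty → (∀ j, ∃ k i, (X.w k).j i = j) → X.Real = Cone J

/-! ### XE: boundary maps of earthquakes -/

/-- the ideal point `c` belongs to the closure of the plaque of `z` -/
def LeafSystem.Vis {Γ : Subgroup SL(2, ℝ)} (S : LeafSystem Γ) (z : ℍ) (c : Bd) : Prop :=
  ∀ p ∈ S.L, ¬ SepIdeal p.1 p.2 z c

/-- XE0: attracting points are dense -/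
def XE0_stmt : Prop := ∀ Γ : Subgroup SL(2, ℝ), IsClosedSurfaceGroup Γ → ∀ x y : Bd, x ≠ y →
  ∃ γ ∈ Γ, ∃ p, Attracts γ p ∧ Cyc x p.1 y

/-- XE1: extension of an order preserving map -/
def XE1_stmt : Prop := ∀ (E : Set Bd) (h : Bd → Bd),
  (∀ x ∈ E, ∀ y ∈ E, ∀ z ∈ E, Cyc x y z → Cyc (h x) (h y) (h z)) →
  (∀ x y, x ≠ y → ∃ e ∈ E, Cyc x e y) → (∀ x y, x ≠ y → ∃ e ∈ E, Cyc x (h e) y) →
  ∃ f : Bd ≃ Bd, (∀ e ∈ E, f e = h e) ∧ ∀ x y z, Cyc x y z → Cyc (f x) (f y) (f z)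

/-- XE2: uniqueness of the boundary map -/
def XE2_stmt : Prop :=
  (∀ (E : Set Bd) (f f' : Bd ≃ Bd), (∀ x y, x ≠ y → ∃ e ∈ E, Cyc x e y) →
    (∀ x y z, Cyc x y z → Cyc (f x) (f y) (f z)) →
    (∀ x y z, Cyc x y z → Cyc (f' x) (f' y) (f' z)) → (∀ e ∈ E, f e = f' e) → f = f') ∧
  (∀ Γ : Subgroup SL(2, ℝ), IsClosedSurfaceGroup Γ →
    ∀ (f f' : Bd ≃ Bd) (r r' : SL(2, ℝ) → SL(2, ℝ)) (g : SL(2, ℝ)), IsConjBy Γ f r →
      IsConjBy Γ f' r' → (∀ γ ∈ Γ, PEq (r' γ) (g * r γ * g⁻¹)) → ∀ x, f' x = g • f x)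

/-- XE3: the ideal points not visible from a plaque lie behind exactly one boundary leaf -/
def XE3_stmt : Prop := ∀ Γ : Subgroup SL(2, ℝ), IsClosedSurfaceGroup Γ → ∀ S : LeafSystem Γ,
  ∀ z, S.OffPt z →
    (∀ c, ¬ S.Vis z c ↔ ∃ p ∈ S.L, S.Near p z ∧ Behind p c) ∧
    (∀ p ∈ S.L, ∀ q ∈ S.L, ∀ c, S.Near p z → S.Near q z → Behind p c → Behind q c → p = q) ∧
    (∀ p ∈ S.L, S.Near p z → S.Vis z p.1 ∧ S.Vis z p.2)

/-- XE4: the images of visible points do not depend on the plaque -/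
def XE4_stmt : Prop := ∀ Γ : Subgroup SL(2, ℝ), IsClosedSurfaceGroup Γ → ∀ S : LeafSystem Γ,
  ∀ (f : Bd ≃ Bd) (r : SL(2, ℝ) → SL(2, ℝ)) (τ : Bd × Bd → ℝ) (A : ℍ → SL(2, ℝ)),
    IsConjBy Γ f r → S.IsPlaqueMap (fun p => twS (r (gen Γ p)) (τ p)) A →
    ∀ z z' c, S.OffPt z → S.OffPt z' → S.Vis z c → S.Vis z' c → A z • f c = A z' • f c

/-- XE5: images of the visible points behind a boundary leaf stay behind it -/
def XE5_stmt : Prop := ∀ Γ : Subgroup SL(2, ℝ), IsClosedSurfaceGroup Γ → ∀ S : LeafSystem Γ,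
  ∀ (f : Bd ≃ Bd) (r : SL(2, ℝ) → SL(2, ℝ)) (τ : Bd × Bd → ℝ) (A : ℍ → SL(2, ℝ)),
    IsConjBy Γ f r → S.IsPlaqueMap (fun p => twS (r (gen Γ p)) (τ p)) A →
    ∀ z z' c, ∀ p ∈ S.L, S.OffPt z → S.OffPt z' → S.Near p z → Behind p c → S.Vis z' c →
      Cyc (A z • f p.1) (A z' • f c) (A z • f p.2)

/-- XE6: the cyclic order is preserved -/
def XE6_stmt : Prop := ∀ Γ : Subgroup SL(2, ℝ), IsClosedSurfaceGroup Γ → ∀ S : LeafSystem Γ,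
  ∀ (f : Bd ≃ Bd) (r : SL(2, ℝ) → SL(2, ℝ)) (τ : Bd × Bd → ℝ) (A : ℍ → SL(2, ℝ)),
    IsConjBy Γ f r → S.IsPlaqueMap (fun p => twS (r (gen Γ p)) (τ p)) A →
    ∀ z₁ z₂ z₃ c₁ c₂ c₃, S.OffPt z₁ → S.OffPt z₂ → S.OffPt z₃ → S.Vis z₁ c₁ → S.Vis z₂ c₂ →
      S.Vis z₃ c₃ → Cyc c₁ c₂ c₃ → Cyc (A z₁ • f c₁) (A z₂ • f c₂) (A z₃ • f c₃)

/-- XE7: the images of the visible points are dense -/
def XE7_stmt : Prop := ∀ Γ : Subgroup SL(2, ℝ), IsClosedSurfaceGroup Γ → ∀ S : LeafSystem Γ,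
  ∀ (f : Bd ≃ Bd) (r : SL(2, ℝ) → SL(2, ℝ)) (τ : Bd × Bd → ℝ) (A : ℍ → SL(2, ℝ)),
    IsConjBy Γ f r → S.IsPlaqueMap (fun p => twS (r (gen Γ p)) (τ p)) A →
    ∀ x y : Bd, x ≠ y → ∃ z c, S.OffPt z ∧ S.Vis z c ∧ Cyc x (A z • f c) y

/-- XE8: twist deformations are earthquakes of marked structures -/
def XE8_stmt : Prop := ∀ Γ : Subgroup SL(2, ℝ), IsClosedSurfaceGroup Γ → ∀ S : LeafSystem Γ,
  ∀ (f : Bd ≃ Bd) (r : SL(2, ℝ) → SL(2, ℝ)) (T : Bd × Bd → ℝ) (z₀ : ℍ) (A : ℍ → SL(2, ℝ)),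
    IsConjBy Γ f r → S.OffPt z₀ → (∀ γ ∈ Γ, ∀ p ∈ S.L, T (ga γ p) = T p) →
    (∀ p ∈ S.L, T (sw p) = T p) → S.IsTwist r T z₀ A →
    ∃ f' : Bd ≃ Bd, IsConjBy Γ f' (fun γ => A (γ • z₀) * r γ) ∧ S.IsQuake T f f' r A

/-- XE9: left earthquakes move the ideal points in the positive direction -/
def XE9_stmt : Prop := ∀ Γ : Subgroup SL(2, ℝ), IsClosedSurfaceGroup Γ → ∀ S : LeafSystem Γ,
  ∀ (ω : Bd × Bd → ℝ) (f f' : Bd ≃ Bd) (r r' : SL(2, ℝ) → SL(2, ℝ)) (B : ℍ → SL(2, ℝ)),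
    IsConjBy Γ f r → IsConjBy Γ f' r' → S.IsQuake ω f f' r B → (∀ p ∈ S.L, 0 ≤ ω p) →
    ∀ z, S.OffPt z → ∀ c c₀, B z • f c₀ = f' c₀ → ¬ Cyc ((B z)⁻¹ • f' c) (f c) (f c₀)

/-! ### XF: bridge -/

/-- XF1: marked structures from representations -/
def XF1_stmt : Prop := ∀ (Γ : Subgroup SL(2, ℝ)) (f : Bd ≃ Bd) (r : SL(2, ℝ) → SL(2, ℝ)),
  IsConjBy Γ f r → ∃ h : MarkedStructure Γ, h.bd = f ∧
    ∀ γ : Γ, h.hol γ = ((r (γ : SL(2, ℝ)) : SL(2, ℝ)) : PSL(2, ℝ))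

/-- XF2: an earthquake from the right to the left structure gives future bending -/
def XF2_stmt : Prop := ∀ Γ : Subgroup SL(2, ℝ), IsClosedSurfaceGroup Γ →
  ∀ (l : WeightedMulticurve Γ) (S : LeafSystem Γ), (∀ p : Bd × Bd, p ∈ S.L ↔ l.w p.1 p.2 ≠ 0) →
  ∀ (M : GHMC Γ) (r r' : SL(2, ℝ) → SL(2, ℝ)) (B : ℍ → SL(2, ℝ)),
    IsConjBy Γ M.right.bd r → IsConjBy Γ M.left.bd r' →
    S.IsQuake (fun p => 2 * l.w p.1 p.2) M.right.bd M.left.bd r B → M.FutureBending l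

/-- XF3: an earthquake from the left to the right structure gives past bending -/
def XF3_stmt : Prop := ∀ Γ : Subgroup SL(2, ℝ), IsClosedSurfaceGroup Γ →
  ∀ (l : WeightedMulticurve Γ) (S : LeafSystem Γ), (∀ p : Bd × Bd, p ∈ S.L ↔ l.w p.1 p.2 ≠ 0) →
  ∀ (M : GHMC Γ) (r r' : SL(2, ℝ) → SL(2, ℝ)) (B : ℍ → SL(2, ℝ)),
    IsConjBy Γ M.left.bd r → IsConjBy Γ M.right.bd r' →
    S.IsQuake (fun p => 2 * l.w p.1 p.2) M.left.bd M.right.bd r B → M.PastBending l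

/-! ### XG: assembly -/

/-- XG1: twists along a larger leaf system with weight zero on the additional leaves -/
def XG1_stmt : Prop := ∀ Γ : Subgroup SL(2, ℝ), IsClosedSurfaceGroup Γ →
  ∀ (l : WeightedMulticurve Γ) (S₀ S : LeafSystem Γ),
    (∀ p : Bd × Bd, p ∈ S₀.L ↔ l.w p.1 p.2 ≠ 0) → S₀.L ⊆ S.L →
    ∀ (r : SL(2, ℝ) → SL(2, ℝ)) (T : Bd × Bd → ℝ) (z₀ : ℍ) (A A₀ : ℍ → SL(2, ℝ)),
      (∀ p ∈ S.L, 2 < |trc (r (gen Γ p))|) → (∀ p ∈ S.L, T p = 2 * l.w p.1 p.2) →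
      S.OffPt z₀ → S.IsTwist r T z₀ A → S₀.IsTwist r (fun p => 2 * l.w p.1 p.2) z₀ A₀ →
      ∀ z, S.OffPt z → A z = A₀ z

/-- XG2: the length function of the bending data satisfies the hypotheses of XA3 -/
def XG2_stmt : Prop := ∀ Γ : Subgroup SL(2, ℝ), IsClosedSurfaceGroup Γ →
  ∀ lm lp : WeightedMulticurve Γ, Fill lm lp →
  ∀ (J K : Type) [Fintype J] [DecidableEq J] [Fintype K] [DecidableEq K] (X : Setup Γ J K),
    (∀ x y, lm.w x y ≠ 0 → (x, y) ∈ X.S.L) → (∀ x y, lp.w x y ≠ 0 → (x, y) ∈ X.S'.L) →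
    (∀ j, ∃ k, 0 < lp.w (X.D'.P k).1 (X.D'.P k).2 ∧ ∃ i, (X.w k).j i = j) →
    X.Real = Cone J →
    CHam (fun z => ∑ k, 2 * lp.w (X.D'.P k).1 (X.D'.P k).2 * (X.w k).H z)
      (fun j => 2 * lm.w (X.D.P j).1 (X.D.P j).2)

/-- XG3: the closed trajectory is the trajectory of the family -/
def XG3_stmt : Prop := ∀ (J K : Type) [Fintype J] [DecidableEq J] [Fintype K] [DecidableEq K]
  (w : K → Word J) (Φ : PreFamily w) (b : K → ℝ) (z : ℝ → PS J),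
    (∀ t ∈ Set.Icc (0 : ℝ) 1, z t ∈ Cone J ∧
      HasDerivWithinAt z (∑ k, b k • sg (fderiv ℝ (w k).H (z t))) (Set.Icc 0 1) t) →
    z 0 = Φ.Z 0 → z 1 = Φ.Z b

/-- the existence statement -/
def ExistStatement : Prop := ∀ Γ : Subgroup SL(2, ℝ), IsClosedSurfaceGroup Γ →
  ∀ lm lp : WeightedMulticurve Γ, Fill lm lp →
    ∃ M : GHMC Γ, M.PastBending lm ∧ M.FutureBending lp

/-- XG4: existence -/
def XG4_stmt : Prop := ExistStatement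

end

end AdSBend
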