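import Pool.Agent.helper69.AD.Defs

/-!
Internal definitions of the geometric part of the project ad (MP_a29257_gt).

Conventions.
* An oriented leaf is an ordered pair `p : Bd × Bd` of distinct ideal points. `Behind p c` says
  that the ideal point `c` lies in the open interval from `p.1` to `p.2` (positive direction);
  the plaque of `p` lies on the other side. The boundary leaves of a plaque are oriented leaves
  with pairwise disjoint closed intervals (`Facing`).
* `gen Γ p` is the generator of the stabiliser of `p`, unique up to sign, with attracting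
  point `p.1` and repelling point `p.2`.
* frames: `F : SL(2, ℝ)` is a frame of `p` if `F • bInf = p.1`, `F • bZero = p.2`; the plaque is
  on the side of the positive reals.
-/

open scoped MatrixGroups LinearAlgebra.Projectivization
open Matrix UpperHalfPlane

namespace AdSBend

noncomputable section

/-! ### elements of SL(2, ℝ) -/

/-- equality in PSL(2, ℝ) -/
def PEq (g h : SL(2, ℝ)) : Prop := g = h ∨ g = -h

/-- translation by `t` along the geodesic from `0` to `∞` -/
def Dm (t : ℝ) : SL(2, ℝ) :=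
  ⟨!![Real.exp (t / 2), 0; 0, Real.exp (-(t / 2))], by
    rw [Matrix.det_fin_two_of, ← Real.exp_add]; simp⟩

/-- translation by `d` along the geodesic from `-1` to `1` -/
def Em (d : ℝ) : SL(2, ℝ) :=
  ⟨!![Real.cosh (d / 2), Real.sinh (d / 2); Real.sinh (d / 2), Real.cosh (d / 2)], by
    rw [Matrix.det_fin_two_of]
    have := Real.cosh_sq (d / 2)
    nlinarith⟩

/-- half turn about `i` -/
def Rm : SL(2, ℝ) := ⟨!![0, 1; -1, 0], by rw [Matrix.det_fin_two_of]; norm_num⟩

/-- the trace -/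
def trc (g : SL(2, ℝ)) : ℝ := g.1 0 0 + g.1 1 1

/-- the lift of the class of `g` in PSL(2, ℝ) with nonnegative trace -/
def pos (g : SL(2, ℝ)) : SL(2, ℝ) := if 0 ≤ trc g then g else -g

/-- translation length of a hyperbolic element -/
def len (g : SL(2, ℝ)) : ℝ := 2 * Real.log ((|trc g| + Real.sqrt (|trc g| ^ 2 - 4)) / 2)

/-- unit vector of the axis of a hyperbolic element (a traceless matrix of determinant `-1`):
`pos g = cosh (len g / 2) + sinh (len g / 2) * axis g` -/
def axis (g : SL(2, ℝ)) : Matrix (Fin 2) (Fin 2) ℝ :=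
  (Real.sinh (len g / 2))⁻¹ • ((pos g).1 - (|trc g| / 2) • (1 : Matrix (Fin 2) (Fin 2) ℝ))

/-- scalar product of traceless matrices: `⟨X, Y⟩ = trace (X Y) / 2` -/
def ip (X Y : Matrix (Fin 2) (Fin 2) ℝ) : ℝ := (X * Y).trace / 2

/-- a matrix of determinant one with all entries positive -/
def PosMat (g : SL(2, ℝ)) : Prop := ∀ i j, 0 < g.1 i j

/-! ### ideal points -/

/-- the ideal point `∞` -/
def bInf : Bd := Projectivization.mk ℝ ![1, 0] (by intro h; simpa using congrFun h 0)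

/-- the ideal point `0` -/
def bZero : Bd := Projectivization.mk ℝ ![0, 1] (by intro h; simpa using congrFun h 1)

/-- the ideal point `c` lies behind the oriented leaf `p` -/
def Behind (p : Bd × Bd) (c : Bd) : Prop := Cyc p.1 c p.2

/-- the closed intervals behind `p` and behind `q` are disjoint:
`p.1, p.2, q.1, q.2` are in positive order -/
def Facing (p q : Bd × Bd) : Prop := Cyc p.1 p.2 q.1 ∧ Cyc p.1 q.1 q.2

/-- the closed interval behind `p` is contained in the open interval behind `q`: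
`q.1, p.1, p.2, q.2` are in positive order -/
def Inside (p q : Bd × Bd) : Prop := Cyc q.1 p.1 p.2 ∧ Cyc q.1 p.2 q.2

/-- `F` is a frame of the oriented leaf `p` -/
def IsFrame (F : SL(2, ℝ)) (p : Bd × Bd) : Prop := F • bInf = p.1 ∧ F • bZero = p.2

/-- `g` is hyperbolic with attracting point `p.1` and repelling point `p.2` (or `±1`, which the
strict inequality excludes) -/
def Attracts (g : SL(2, ℝ)) (p : Bd × Bd) : Prop :=
  p.1 ≠ p.2 ∧ g • p.1 = p.1 ∧ g • p.2 = p.2 ∧ ∀ c, Cyc p.2 c p.1 → Cyc p.2 c (g • c)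

/-- the oriented leaf `p` and the point `z`: `z` lies (strictly) behind `p` -/
def BehindPt (p : Bd × Bd) (z : ℍ) : Prop := 0 < side z p.1 p.2

/-- the oriented leaf `p` and the point `z`: `z` lies (strictly) in front of `p` -/
def FrontPt (p : Bd × Bd) (z : ℍ) : Prop := side z p.1 p.2 < 0

/-- points of the segment from `z` to `z'` (parametrised in the Klein model, so that `side` is
affine in `s`) -/
def segRe (z z' : ℍ) (s : ℝ) : ℝ := (1 - s) * z.re + s * z'.re

/-- the affine function `|z|^2` along the segment -/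
def segSq (z z' : ℍ) (s : ℝ) : ℝ :=
  (1 - s) * (z.re ^ 2 + z.im ^ 2) + s * (z'.re ^ 2 + z'.im ^ 2)

/-- `w` is the point with parameter `s` of the segment from `z` to `z'` -/
def OnSeg (z z' : ℍ) (s : ℝ) (w : ℍ) : Prop :=
  w.re = segRe z z' s ∧ w.re ^ 2 + w.im ^ 2 = segSq z z' s

/-! ### generators of stabilisers -/

variable (Γ : Subgroup SL(2, ℝ))

/-- `g` generates the stabiliser of the oriented leaf `p` in `Γ` (up to sign), with attracting
point `p.1` -/
def IsGen (p : Bd × Bd) (g : SL(2, ℝ)) : Prop :=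
  g ∈ Γ ∧ Attracts g p ∧ ∀ γ ∈ Γ, γ • p.1 = p.1 → γ • p.2 = p.2 → ∃ n : ℤ, PEq γ (g ^ n)

open Classical in
/-- a generator of the stabiliser of `p` -/
def gen (p : Bd × Bd) : SL(2, ℝ) := if h : ∃ g, IsGen Γ p g then h.choose else 1

/-! ### leaf systems -/

/-- the set of all oriented lifts of the components of a multicurve -/
structure LeafSystem where
  L : Set (Bd × Bd)
  swap : ∀ p ∈ L, (p.2, p.1) ∈ L
  inv : ∀ γ ∈ Γ, ∀ p ∈ L, (γ • p.1, γ • p.2) ∈ L
  closed : ∀ p ∈ L, IsClosedGeodesic Γ p.1 p.2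
  unlinked : ∀ p ∈ L, ∀ q ∈ L, ¬ Linked p.1 p.2 q.1 q.2
  finite : ∃ s : Finset (Bd × Bd), ∀ p ∈ L, ∃ γ ∈ Γ, (γ • p.1, γ • p.2) ∈ s

variable {Γ}

namespace LeafSystem

/-- `p` and `q` are oriented boundary leaves of one plaque -/
def CoPl (S : LeafSystem Γ) (p q : Bd × Bd) : Prop :=
  p ∈ S.L ∧ q ∈ S.L ∧ Facing p q ∧ ∀ r ∈ S.L, Inside p r → ¬ Facing r q

/-- `p, q, r` are the long sides of a hexagon of the pair of pants -/
def Hex (S : LeafSystem Γ) (p q r : Bd × Bd) : Prop :=
  S.CoPl p q ∧ S.CoPl q r ∧ S.CoPl r p ∧ Cyc p.1 q.1 r.1 ∧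
    PEq (gen Γ p * gen Γ q * gen Γ r) 1

/-- `p` and `q` are joined by a seam -/
def Seam (S : LeafSystem Γ) (p q : Bd × Bd) : Prop := ∃ r, S.Hex p q r ∨ S.Hex q p r

/-- elementary moves between hexagons of one plaque: rotation, shift, inverse shift -/
def HexMove (Γ : Subgroup SL(2, ℝ)) (h h' : (Bd × Bd) × (Bd × Bd) × (Bd × Bd)) : Prop :=
  h' = (h.2.1, h.2.2, h.1) ∨
  h' = (h.1, h.2.2, (gen Γ h.1 • h.2.1.1, gen Γ h.1 • h.2.1.2)) ∨
  h' = (h.1, ((gen Γ h.1)⁻¹ • h.2.2.1, (gen Γ h.1)⁻¹ • h.2.2.2), h.2.1)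

/-- two hexagons are connected by elementary moves -/
def HexConn (Γ : Subgroup SL(2, ℝ)) : (Bd × Bd) × (Bd × Bd) × (Bd × Bd) →
    (Bd × Bd) × (Bd × Bd) × (Bd × Bd) → Prop := Relation.ReflTransGen (HexMove Γ)

/-- all plaques of the leaf system are pairs of pants -/
structure IsPants (S : LeafSystem Γ) : Prop where
  hex : ∀ p ∈ S.L, ∃ q r, S.Hex p q r
  reach : ∀ p q r, S.Hex p q r → ∀ s, S.CoPl p s → ∃ u v, HexConn Γ (p, q, r) (s, u, v)

/-- the point `z` lies on no leaf -/
def OffPt (S : LeafSystem Γ) (z : ℍ) : Prop := ∀ p ∈ S.L, side z p.1 p.2 ≠ 0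

/-- the points `z` and `z'` lie in the same plaque -/
def SamePl (S : LeafSystem Γ) (z z' : ℍ) : Prop := ∀ p ∈ S.L, ¬ SepPts p.1 p.2 z z'

/-- `z` lies in front of the oriented leaf `p`, `z'` lies behind it, and no other leaf separates
`z` from `z'` -/
def Across (S : LeafSystem Γ) (p : Bd × Bd) (z z' : ℍ) : Prop :=
  p ∈ S.L ∧ FrontPt p z ∧ BehindPt p z' ∧
    ∀ q ∈ S.L, SepPts q.1 q.2 z z' → q = p ∨ q = (p.2, p.1)

/-- `z` is a point of the plaque in front of the oriented leaf `p` -/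
def Near (S : LeafSystem Γ) (p : Bd × Bd) (z : ℍ) : Prop :=
  S.OffPt z ∧ FrontPt p z ∧ ∀ q ∈ S.L, FrontPt q z → ¬ Inside p q

/-- a function on the plaques with given jumps across the leaves -/
def IsPlaqueMap (S : LeafSystem Γ) (E : Bd × Bd → SL(2, ℝ)) (A : ℍ → SL(2, ℝ)) : Prop :=
  (∀ z z', S.OffPt z → S.OffPt z' → S.SamePl z z' → A z = A z') ∧
    ∀ z z' p, S.OffPt z → S.OffPt z' → S.Across p z z' → A z' = A z * E p

end LeafSystem

/-! ### representations -/

variable (Γ)

/-- `r` is a representation of `Γ / ±1` in PSL(2, ℝ), given by lifts to SL(2, ℝ) -/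
def IsPRep (r : SL(2, ℝ) → SL(2, ℝ)) : Prop :=
  ∀ γ ∈ Γ, ∀ δ ∈ Γ, ∀ ε ∈ Γ, PEq ε (γ * δ) → PEq (r ε) (r γ * r δ)

/-- `r` is conjugate to the inclusion of `Γ` by the orientation preserving homeomorphism `f` of
the circle -/
def IsConjBy (f : Bd ≃ Bd) (r : SL(2, ℝ) → SL(2, ℝ)) : Prop :=
  (∀ x y z, Cyc x y z → Cyc (f x) (f y) (f z)) ∧ ∀ γ ∈ Γ, ∀ x, f (γ • x) = r γ • f x

variable {Γ}

/-- `r` is admissible for the leaf system: the leaves are hyperbolic and the pairs of pants have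
the right sign -/
def LeafSystem.Adm (S : LeafSystem Γ) (r : SL(2, ℝ) → SL(2, ℝ)) : Prop :=
  IsPRep Γ r ∧ (∀ p ∈ S.L, 2 < |trc (r (gen Γ p))|) ∧
    ∀ p q s, S.Hex p q s → trc (pos (r (gen Γ p)) * pos (r (gen Γ q))) < 0

/-- `F` is the frame of the seam between the axes of `a` and `x` (at its foot on the axis
of `a`) -/
def IsSeamFrame (a x F : SL(2, ℝ)) : Prop :=
  ∃ d : ℝ, 0 < d ∧ pos a = F * Dm (len a) * F⁻¹ ∧
    pos x = F * Em d * Dm (-len x) * Em (-d) * F⁻¹

/-- translation by `s` along the axis of `g`, in the attracting direction -/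
def tw (g : SL(2, ℝ)) (s : ℝ) (F : SL(2, ℝ)) : Prop :=
  F.1 = Real.cosh (s / 2) • (1 : Matrix (Fin 2) (Fin 2) ℝ) + Real.sinh (s / 2) • axis g

end

end AdSBend
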