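import Pool.Agent.helper69.AD.Defs

/-!
Supplement to the definitions: support planes of the convex hull of the limit curve.
-/

open scoped MatrixGroups LinearAlgebra.Projectivization
open Matrix UpperHalfPlane

namespace AdSBend

variable {Γ : Subgroup SL(2, ℝ)}

/-- `L` lifts the limit curve of `M` to rank one matrices in `ℝ⁴` in a coherent way: `L c` has
image `right.bd c` and kernel `left.bd c` (this is the point `(left.bd c, right.bd c)` of the
boundary at infinity of `AdS³ = {det = 1} / ±1`), and no two points of the lift are separated by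
the quadric `det = 0`. -/
def GHMC.IsLift (M : GHMC Γ) (L : Bd → Matrix (Fin 2) (Fin 2) ℝ) : Prop :=
  (∀ c, ∃ (u v : Fin 2 → ℝ) (hu : u ≠ 0) (hv : v ≠ 0), M.left.bd c = Projectivization.mk ℝ u hu ∧
    M.right.bd c = Projectivization.mk ℝ v hv ∧ L c = Matrix.vecMulVec v ![-(u 1), u 0]) ∧
  ∀ c c', 0 ≤ (L c + L c').det

/-- SUP: `FutureSupport` and `PastSupport` describe exactly the support planes of the convex hull
of the limit curve that touch the limit curve -/
def SUP_stmt : Prop := ∀ (Γ : Subgroup SL(2, ℝ)) (M : GHMC Γ) (N : SL(2, ℝ)),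
  (∃ L, M.IsLift L) ∧ (∀ c, M.Touches N c ↔ ∀ L, M.IsLift L →
    Matrix.trace ((N⁻¹ : SL(2, ℝ)) * L c : Matrix (Fin 2) (Fin 2) ℝ) = 0) ∧
  ((M.FutureSupport N ∨ M.PastSupport N) ↔ (∃ c, M.Touches N c) ∧ ∃ L, M.IsLift L ∧
    ∀ X ∈ convexHull ℝ (Set.range L),
      0 ≤ Matrix.trace ((N⁻¹ : SL(2, ℝ)) * X : Matrix (Fin 2) (Fin 2) ℝ))

end AdSBend
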